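import Pool.Agent.Lib.MP_f44088_al.FB5.Spec

/-! Project FB5 (MP_f44088_al), module Ab3: three primes, abelian monolith. -/

set_option autoImplicit false

open scoped commutatorElement

namespace Pool.Agent.Lib.MP_f44088_fd

open Pool.Agent.Lib.MP_f44088_fb (Sat InVar FGrp Cls Mono)
open Pool.Agent.Lib.MP_f44088_fc.DLAux (AG)

theorem Ab3 : S_Cen → S_TwoPr → S_Ab3 := by
  intro hCen hTwo G _ _ hM hG hk p hp A hAn hA0 hAp
  obtain ⟨P, hPn, hAP, hPp, hPi, -⟩ := hCen G hM hG p hp A hAn hA0 hAp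
  have := hPn
  have hP0 : P ≠ ⊥ := by
    intro h
    rw [h, le_bot_iff] at hAP
    exact hA0 hAP
  have hpG : p ∈ (Nat.card G).primeFactors := by
    have : Fact p.Prime := ⟨hp⟩
    rw [Nat.mem_primeFactors]
    refine ⟨hp, ?_, Nat.card_pos.ne'⟩
    obtain ⟨n, hn⟩ := IsPGroup.iff_card.1 hPp
    have h1 : Nat.card P ∣ Nat.card G := P.card_subgroup_dvd_card
    have h2 : n ≠ 0 := by
      rintro rfl
      rw [pow_zero] at hn
      exact hP0 (Subgroup.card_eq_one.1 hn)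
    exact (dvd_pow_self p h2).trans (hn ▸ h1)
  have hpQ : p ∉ (Nat.card (G ⧸ P)).primeFactors := by
    intro h
    exact hPi (Nat.dvd_of_mem_primeFactors h)
  have hcard : (Nat.card (G ⧸ P)).primeFactors.card < (Nat.card G).primeFactors.card := by
    apply Finset.card_lt_card
    refine ⟨Pool.Agent.Lib.MP_f44088_fc.DLAux.primes_quot P, fun h => hpQ (h hpG)⟩
  have h1 : derivedSeries (G ⧸ P) 2 = ⊥ :=
    hTwo (G ⧸ P) (Pool.Agent.Lib.MP_f44088_fc.DLAux.ag_quot hG P) (by omega)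
  have h2 : derivedSeries G 2 ≤ P := Pool.Agent.Lib.MP_f44088_fc.DLAux.der_le P 2 h1
  rw [derivedSeries_succ, eq_bot_iff, Subgroup.commutator_le]
  intro x hx y hy
  rw [Subgroup.mem_bot]
  exact commutatorElement_eq_one_iff_mul_comm.2 (hG p hp P hPp x (h2 hx) y (h2 hy))

end Pool.Agent.Lib.MP_f44088_fd
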