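import Mathlib
import Pool.Agent.Lib.MP_f44088_al.FB3.Seq
import Pool.Agent.Lib.MP_f44088_al.FB3.D3
import Pool.Agent.Lib.MP_f44088_al.FB4.Spec
import Pool.Agent.Lib.MP_f44088_al.FB4.DL

/-! Project FB5 (MP_f44088_al): non-soluble varieties of A-groups. Every docstring contains the complete proof.
Tools already proved: `FB3/Seq.lean` (namespace `Pool.Agent.Lib.MP_f44088_fb.SeqAux`: `sat_inVar`, `sat_of_quot`,
`letters`, `map_lift`, `card_quot`, `mono_min`, `min_ce`, `finite_ce`, `ag_of`), `FB3/D3.lean` (`D3Aux.w`,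
`D3Aux.V`, `D3Aux.closure_V`, `D3Aux.lift_w`), `FB3/Two.lean`, `FB3/FgF.lean`, `FB4/DL.lean` (namespace
`Pool.Agent.Lib.MP_f44088_fc.DLAux`: `AG`, `ag_quot`, `ag_sub`, `der_le`, `primes_quot`, `central_eq_one`,
`mono_sylow`). -/

set_option autoImplicit false

open scoped commutatorElement

namespace Pool.Agent.Lib.MP_f44088_fd

open Pool.Agent.Lib.MP_f44088_fb (Sat InVar FGrp Cls Mono)
open Pool.Agent.Lib.MP_f44088_fc.DLAux (AG)

/-- the iterated commutator condition: all `[..[[h, z_1^(y_1)], z_2^(y_2)], ..]` are 1 -/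
def K {G : Type} [Group G] : List G → G → Prop
  | [], h => h = 1
  | z :: L, h => ∀ y : G, K L ⁅h, y * z * y⁻¹⁆

/-- the list of the `x i * (x j)⁻¹`, `i < j ≤ N` -/
def prs {G : Type} [Group G] (N : ℕ) (x : ℕ → G) : List G :=
  (List.range (N + 1)).flatMap fun j => (List.range j).map fun i => x i * (x j)⁻¹

/-- the law: every iterated commutator of an element of the third derived subgroup with the `x i * (x j)⁻¹` is 1 -/
def KLaw (N : ℕ) (G : Type) [Group G] : Prop :=
  ∀ x : ℕ → G, ∀ h ∈ derivedSeries G 3, K (prs N x) h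

/-! ## Part L: the law -/

/-- (KK) No hypotheses. PROOF. Induction on `L`. `[]`: `H = ⊥`. `z :: L`: let `H` be the normal subgroup for `L`.
`H' = {h : for all y, ⁅h, y z y⁻¹⁆ ∈ H}` is the set of the `h` whose image in `G ⧸ H` commutes with the images of all
`y z y⁻¹` (`⁅a, b⁆ ∈ H` iff the images commute): the preimage of the centralizer of a set invariant under conjugation,
so a normal subgroup. -/
def S_KK : Prop :=
  ∀ (G : Type) [Group G] (L : List G), ∃ H : Subgroup G, H.Normal ∧ ∀ h, h ∈ H ↔ K L h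

/-- (Law) `KLaw N` is given by one word. Allowed hypothesis: `S_KK`. PROOF. For a list `U` of words, `m : ℕ` and a
word `h` put `cw [] m h = h`, `cw (u :: U) m h = cw U (m+1) ⁅h, of m * u * (of m)⁻¹⁆`. CLAIM: if `h` and all entries of
`U` have only letters `< m` (i.e. `lift f w = lift g w` whenever `f i = g i` for all `i < m`), then for every group:
(for all `f`, `lift f (cw U m h) = 1`) iff (for all `f`, `K (U.map (lift f)) (lift f h)`). Induction on `U` for all
`m, h`: by the induction hypothesis the left side is: for all `f`, `K (U.map (lift f)) ⁅lift f h, f m * lift f u * (f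
m)⁻¹⁆`, and `f m` can be changed to any `y` without changing the other terms (`Function.update f m y`). Now let
`w = D3Aux.w` (letters `0..7`), `U` = the words `of (8+i) * (of (8+j))⁻¹`, `i < j ≤ N`, `v = cw U (9+N) w`. So
`v` is a law iff `K (prs N x) h` for all `x` and all values `h` of `w` (choose `f i` for `i < 8` and `f (8+i) = x i`
independently), i.e. all `h ∈ D3Aux.V G 3`; by `S_KK` iff for all `h ∈ closure (V G 3) = derivedSeries G 3`
(`D3Aux.closure_V`). -/
def S_Law : Prop :=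
  ∀ N : ℕ, ∃ v : FreeGroup ℕ, ∀ (G : Type) [Group G], (∀ f : ℕ → G, FreeGroup.lift f v = 1) ↔ KLaw N G

/-- (Two) The two variable laws of a locally finite variety are finitely based. No hypotheses. PROOF. Exactly
`FB3/Two.lean` (where only the local finiteness from `Hyp` is used): copy it with this hypothesis. -/
def S_Two : Prop :=
  ∀ W : Set (FreeGroup ℕ), (∀ (G : Type) [Group G], Sat W G →
      ∀ s : Finset G, Finite (Subgroup.closure (s : Set G))) →
    ∃ B : Finset (FreeGroup ℕ),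
      (∀ (G : Type) [Group G], Sat W G → Sat (B : Set (FreeGroup ℕ)) G) ∧
      ∀ (G : Type) [Group G], Sat (B : Set (FreeGroup ℕ)) G →
        ∀ x y : G, Sat W (Subgroup.closure ({x, y} : Set G))

/-- (Wv) The variety satisfies `KLaw N`. Allowed hypotheses: `S_KK`, `S_Law`. PROOF. Let `v` be the word of `S_Law`. (a)
FINITE members `H` satisfy the law `v`: strong induction on `Nat.card H`. Trivial group: clear. `Mono H`: if
`derivedSeries H 3 = ⊥` then `h = 1` and `K L 1` holds (`1` is in the subgroup of `S_KK`). If `Nat.card H ≤ N`: two of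
`x 0, .., x N` are equal, so `1 ∈ prs N x`, and `K L h` holds for all `h` when `1 ∈ L` (induction on `L`:
`⁅h, y * 1 * y⁻¹⁆ = 1`, and `K L 1`). Otherwise there are normal `M, N ≠ ⊥` with `M ⊓ N = ⊥`; `H ⧸ M`, `H ⧸ N` are
members of smaller order (`card_quot`, `sat_inVar`, `inVar_of_surjective`), and `sat_of_quot` for the set `{v}`.
(b) Let `G` be a member, `f : ℕ → G`; `v` depends only on the letters `< K` (`letters`); the subgroup generated by
`f 0 .. f (K-1)` is finite, a member, so `lift f v = 1` (as in the proof of `dl_variety` in `FB4/DL.lean`). -/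
def S_Wv : Prop :=
  ∀ (W : Set (FreeGroup ℕ)) (N : ℕ), (∀ (G : Type) [Group G], Sat W G →
      ∀ s : Finset G, Finite (Subgroup.closure (s : Set G))) →
    (∀ (G : Type) [Group G] [Finite G], Sat W G → Mono G → derivedSeries G 3 = ⊥ ∨ Nat.card G ≤ N) →
    ∀ (G : Type) [Group G], Sat W G → KLaw N G

/-! ## Part C: consequences of the law -/

/-- (Chf) Chief factors in the third derived subgroup. Allowed hypothesis: `S_KK`. PROOF. `C = {g : ⁅x, g⁆ ∈ Y for all
x ∈ X}` is a normal subgroup: the image in `G ⧸ Y` commutes with the image of `X`. (1) For every list `L` all of whose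
entries are not in `C`, with `H` the subgroup of `S_KK` for `L`: NOT `X ≤ H ⊔ Y`. Induction on `L`. `[]`: `H = ⊥`,
`X ≤ Y` contradicts `Y < X`. `z :: L`, `H'` the subgroup for `z :: L`, `H` the one for `L`; suppose `X ≤ H' ⊔ Y`. Let `T` be the
subgroup generated by all `⁅x, y z y⁻¹⁆`, `x ∈ X`, `y ∈ G`: normal, `≤ X`. `Y ≤ T ⊔ Y ≤ X`, so `T ⊔ Y = Y` or `T ⊔ Y = X`.
First case: `⁅x, z⁆ ∈ Y` for all `x ∈ X`, so `z ∈ C`, contradiction. Second case: every `x ∈ X` is `k u` with `k ∈ H'`,
`u ∈ Y` (`Subgroup.mem_sup_of_normal_right` or so), and modulo the normal subgroup `H ⊔ Y` the elements `k` and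
`y z y⁻¹` commute (`⁅k, y z y⁻¹⁆ ∈ H`) and `u` is 1: so `⁅x, y z y⁻¹⁆ ∈ H ⊔ Y`: `T ≤ H ⊔ Y`, `X = T ⊔ Y ≤ H ⊔ Y`,
contradiction to the induction hypothesis. (2) If `C` has more than `N` cosets (or infinitely many) choose `x 0 .. x N`
with `x i * (x j)⁻¹ ∉ C` for `i < j ≤ N`. All entries of `prs N x` are not in `C`; but `X ≤ derivedSeries G 3 ≤ H` by
`KLaw`: contradiction to (1). -/
def S_Chf : Prop :=
  ∀ (N : ℕ) (G : Type) [Group G], KLaw N G → ∀ X Y : Subgroup G, X.Normal → Y.Normal → Y < X →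
    X ≤ derivedSeries G 3 → (∀ Z : Subgroup G, Z.Normal → Y ≤ Z → Z ≤ X → Z = Y ∨ Z = X) →
    ∃ C : Subgroup G, C.Normal ∧ (∀ g, g ∈ C ↔ ∀ x ∈ X, ⁅x, g⁆ ∈ Y) ∧ C.index ≠ 0 ∧ C.index ≤ N

/-- (Nil) A finite nilpotent A-group is abelian. No hypotheses. PROOF. `Group.isNilpotent_of_finite_tfae` (or
`IsNilpotent.normal_of_sylow` etc.): it is isomorphic to the direct product of its Sylow subgroups, which are abelian. -/
def S_Nil : Prop :=
  ∀ (G : Type) [Group G] [Finite G], Group.IsNilpotent G → AG G → ∀ x y : G, x * y = y * x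

/-- (Max) Zorn. No hypotheses. PROOF. The union of a chain of normal subgroups of `G` which are contained in `E` and
`≠ E` is of the same kind, because `E` is finitely generated. A maximal one is `Y`. -/
def S_Max : Prop :=
  ∀ (G : Type) [Group G] (E : Subgroup G), E.Normal → E.FG → E ≠ ⊥ →
    ∃ Y : Subgroup G, Y.Normal ∧ Y < E ∧ ∀ Z : Subgroup G, Z.Normal → Y ≤ Z → Z ≤ E → Z = Y ∨ Z = E

/-- (Ker) Finitely many homomorphisms. No hypotheses. PROOF. `G` is finitely generated, so there are only finitely many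
homomorphisms `G →* Equiv.Perm (Fin N)` (determined by the images of the generators); `R0` = the intersection of their
kernels. If `C` is normal of index `k ≤ N`, `k ≠ 0`, then `G ⧸ C` acts on itself (Cayley), `G ⧸ C` is embedded in
`Fin N`, so in `Equiv.Perm (Fin N)`: `C` is the kernel of a homomorphism `G →* Equiv.Perm (Fin N)`. -/
def S_Ker : Prop :=
  ∀ (N : ℕ) (G : Type) [Group G], Group.FG G → ∃ R0 : Subgroup G, R0.Normal ∧ R0.index ≠ 0 ∧
    ∀ C : Subgroup G, C.Normal → C.index ≠ 0 → C.index ≤ N → R0 ≤ C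

/-- (LF) Local finiteness. Allowed hypotheses: `S_FgF` of FB3 (`Pool.Agent.Lib.MP_f44088_fb.S_FgF`), `S_Chf`, `S_Nil`,
`S_Max`, `S_Ker`. PROOF. `D = derivedSeries G 3`. `G ⧸ D` is finitely generated, of exponent dividing `n`, and
`derivedSeries (G ⧸ D) 3 = ⊥`: finite by `S_FgF`. `R0` from `S_Ker`, `R = R0 ⊓ D`: normal of finite index, so finitely
generated (`Subgroup.fg_of_index_ne_zero`). `E = ⁅R, R⁆`, normal in `G`. `R/E` is abelian, finitely generated, of
exponent dividing `n`: finite (`S_FgF` with `m = 1` for `↥R ⧸ commutator ↥R`), so `E` has finite index in `G` and is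
finitely generated. Suppose `E ≠ ⊥`. `Y` from `S_Max`. `S_Chf` with `X = E ≤ D`: `C` normal of index `≤ N`, so
`R ≤ R0 ≤ C`: `⁅e, r⁆ ∈ Y` for all `e ∈ E`, `r ∈ R`. Let `a, b ∈ R`, `H = closure {a, b}` (finite, AG), `Y' = Y.subgroupOf H`
(normal in `H`): `H ⧸ Y'` is nilpotent of class 2 (commutators of elements of `H ≤ R` are in `E`, and commute modulo
`Y` with the elements of `R`), AG (`ag_quot`), so abelian by `S_Nil`: `⁅a, b⁆ ∈ Y`. So `E ≤ Y`, contradiction. So
`E = ⊥`, `R` is abelian, finitely generated, of exponent dividing `n`, so finite; `G` is finite. -/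
def S_LF : Prop :=
  ∀ (n N : ℕ), 0 < n → ∀ (G : Type) [Group G], Group.FG G → (∀ x : G, x ^ n = 1) →
    (∀ x y : G, Finite (Subgroup.closure ({x, y} : Set G)) ∧ AG (Subgroup.closure ({x, y} : Set G))) →
    KLaw N G → Finite G

/-- (Cen) The centralizer of a normal `p`-subgroup. No hypotheses. PROOF. As `DLAux.mono_sylow` (same file, copy the
beginning of its proof): `P` Sylow `p`-subgroup containing `A`, `C` = centralizer of `A`, normal, contains `P`,
`⁅C, C⁆ = ⊥`, `P` = the set of the `p`-elements of `C`, normal in `G`. New: `C ≤ P`: `{c ∈ C : c^m = 1 for some m prime to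
p}` is a normal subgroup of `G` (`C` abelian) which meets `A` trivially, so it is `⊥` by `Mono`; for `g ∈ C` of order
`p^a m`, `m` prime to `p`, `g^(p^a)` lies in it, so `g` is a `p`-element, `g ∈ P`. -/
def S_Cen : Prop :=
  ∀ (G : Type) [Group G] [Finite G], Mono G → AG G → ∀ p : ℕ, p.Prime → ∀ A : Subgroup G, A.Normal → A ≠ ⊥ →
    IsPGroup p A → ∃ P : Subgroup G, P.Normal ∧ A ≤ P ∧ IsPGroup p P ∧ ¬ p ∣ P.index ∧
      ∀ g : G, (∀ a ∈ A, a * g = g * a) → g ∈ P

/-- (Bd) Bound for the other monolithic groups. Allowed hypotheses: `S_Chf`, `S_Cen`, `Pool.Agent.Lib.MP_f44088_fc.S_Dua`.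
PROOF. `N' = N * n ^ N + N`. Suppose `derivedSeries G 3 ≠ ⊥`. Let `M ≠ ⊥` be a normal subgroup of least order contained in
`derivedSeries G 3`. By `Mono` every normal `L ≠ ⊥` contains `M` (`L ⊓ M ≠ ⊥` is normal and not smaller). `S_Chf`
with `X = M`, `Y = ⊥`: `C` = centralizer of `M`, `0 < index ≤ N`. If `C = ⊥`, `Nat.card G = C.index ≤ N`. Otherwise `M ≤ C`:
`M` is abelian. Let `p` divide `Nat.card M`; `{x ∈ M : x^(p^j) = 1 for some j}` is normal, `≠ ⊥`, so equal to `M`:
`M` is a `p`-group. `S_Cen` with `A = M`: `P`, and `C ≤ P`, so `P.index ≤ N`; `P` is abelian (AG), and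
`x^(p^e) = 1` on `P` with `p^e ≤ n` (`p^e` = the `p`-part of `n`: `x^n = 1` and `x` is a `p`-element). Choose
`1 ≠ v ∈ M`; `S_Dua` for `Additive P`: additive `ℓ : P → ZMod (p^e)` with `ℓ v ≠ 0`. Let `T` be the set of cosets
`G ⧸ P` with representatives `t`. The map `P → (G ⧸ P → ZMod (p^e))`, `x ↦ (ℓ (t x t⁻¹))_t` is a homomorphism; its kernel is
`{x ∈ P : ℓ (g x g⁻¹) = 0 for all g ∈ G}` (with representatives of the cosets `P t`, or use `t⁻¹`; `P` is abelian, so
the value depends only on the coset), normal in `G`, does not contain `v`, so it is `⊥`. So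
`Nat.card P ≤ (p^e)^N ≤ n^N` and `Nat.card G ≤ N * n^N`. -/
def S_Bd : Prop :=
  ∀ (n N : ℕ), 0 < n → ∃ N' : ℕ, ∀ (G : Type) [Group G] [Finite G], (∀ x : G, x ^ n = 1) → AG G → Mono G →
    KLaw N G → derivedSeries G 3 = ⊥ ∨ Nat.card G ≤ N'

/-! ## Part P: three primes -/

/-- (Ito) The product of two abelian groups is metabelian. No hypotheses. PROOF. Let `a, a1 ∈ A`, `b, b1 ∈ B`. Write
`x^y = y⁻¹ x y`, `[x, y] = x⁻¹ y⁻¹ x y`. `b^(a1) = a2 b2`, `a^(b1) = b3 a3` with `a2, a3 ∈ A`, `b2, b3 ∈ B` (every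
element is also of the form `b a`, by inversion). `[a, b]^(a1 b1) = [a, b^(a1)]^(b1) = [a, a2 b2]^(b1) = [a, b2]^(b1)
= [a^(b1), b2] = [b3 a3, b2] = [a3, b2]` and `[a, b]^(b1 a1) = [a^(b1), b]^(a1) = [b3 a3, b]^(a1) = [a3, b]^(a1)
= [a3, b^(a1)] = [a3, a2 b2] = [a3, b2]`. So `[a, b]` commutes with `a1 b1 (b1 a1)⁻¹`, i.e. with every commutator
`⁅a1, b1⁆`. The subgroup generated by the `⁅a, b⁆` is normal (`⁅a, b⁆^(a1) = ⁅a, a2 b2⁆`-computation as above) and the
quotient is abelian, so it is the commutator subgroup; it is abelian: `derivedSeries G 2 = ⊥`. -/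
def S_Ito : Prop :=
  ∀ (G : Type) [Group G] (A B : Subgroup G), (∀ x ∈ A, ∀ y ∈ A, x * y = y * x) →
    (∀ x ∈ B, ∀ y ∈ B, x * y = y * x) → (∀ g : G, ∃ a ∈ A, ∃ b ∈ B, g = a * b) → derivedSeries G 2 = ⊥

/-- (TwoPr) At most two primes. Allowed hypothesis: `S_Ito`. PROOF. If no prime divides the order, `G` is trivial; if
one, `G` is a `p`-group, abelian. If `p ≠ q` are the primes: Sylow subgroups `A`, `B`, abelian, `A ⊓ B = ⊥`, and
`Nat.card A * Nat.card B = Nat.card G`: `IsComplement'` (`Subgroup.isComplement'_of_coprime`), so every element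
is `a b`; `S_Ito`. -/
def S_TwoPr : Prop :=
  ∀ (G : Type) [Group G] [Finite G], AG G → (Nat.card G).primeFactors.card ≤ 2 → derivedSeries G 2 = ⊥

/-- (Ab3) Three primes, abelian monolith. Allowed hypotheses: `S_Cen`, `S_TwoPr`. PROOF. `P` from `S_Cen`, `P ≠ ⊥`
(`A ≤ P`), so `p` divides `Nat.card G` and not `Nat.card (G ⧸ P) = P.index`: `G ⧸ P` has at most two primes, AG
(`ag_quot`), `S_TwoPr`: `derivedSeries (G ⧸ P) 2 = ⊥`, `derivedSeries G 2 ≤ P` (`der_le`), and `P` is abelian. -/
def S_Ab3 : Prop :=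
  ∀ (G : Type) [Group G] [Finite G], Mono G → AG G → (Nat.card G).primeFactors.card ≤ 3 → ∀ p : ℕ, p.Prime →
    ∀ A : Subgroup G, A.Normal → A ≠ ⊥ → IsPGroup p A → derivedSeries G 3 = ⊥

/-- (Non3) Three primes, nonabelian monolith. Allowed hypotheses: `S_Ab3`, `S_TwoPr`. PROOF. If some nontrivial normal
subgroup is a `p`-group for some prime `p`: `S_Ab3`. Suppose there is none. Let `M ≠ ⊥` be normal in `G` of least
order, `S ≤ M` with `S ≠ ⊥` normal in `M` (normalized by `M`) of least order. (1) `S` is not abelian: otherwise, for a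
prime `p` dividing `Nat.card S`, the set of `p`-elements of `S` is a normal `p`-subgroup of `M`, it lies in the
largest normal `p`-subgroup of `M`, which is normal in `G` and not `⊥`: contradiction (or: the normal closure of `S` in
`G` is generated by conjugates of `S`, which are equal or commute, so it is abelian, and its `p`-part is normal in `G`).
(2) Three primes divide `Nat.card S`: otherwise `derivedSeries S 2 = ⊥` by `S_TwoPr`; `⁅S, S⁆` is normal in `M`, so it
is `S` or `⊥`; `⊥` contradicts (1), `S = ⁅S, S⁆` gives `S = derivedSeries 2 = ⊥`. (3) `S` is normal in `G`: suppose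
`g S g⁻¹ ≠ S`. Every element is a product of elements of prime power order (powers of itself), so let `g` have order
`r^j`, `r` prime; if `j = 0` clear. `r` divides `Nat.card G`, so `r` divides `Nat.card S` (three primes at most). Let
`R` be a Sylow `r`-subgroup of `G` containing `g`; `R ⊓ M` is a Sylow `r`-subgroup of `M` and `R ⊓ S` one of `S`
(for a normal subgroup `L` of `H` and a Sylow subgroup `R` of `H` the index of `R ⊓ L` in `L` divides the index of `R`
in `H`), so there is `1 ≠ s ∈ R ⊓ S`. `R` is abelian: `s = g s g⁻¹ ∈ S ⊓ g S g⁻¹`. But `g S g⁻¹ ≤ M` is normal in `M`, so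
`S ⊓ g S g⁻¹` is normal in `M`, smaller than `S`, so `⊥`: contradiction. (4) So `M = S` by minimality of `M`, and `S` has no
proper nontrivial subgroup normal in `M = S`: `IsSimpleGroup M`. (5) The centralizer `C` of `M` is normal,
`C ⊓ M = ⊥` (it is `⊥` or `M`; `M` is not abelian), so `C = ⊥` by `Mono`; `G` acts on `M` by conjugation faithfully:
`Nat.card G ≤ (Nat.card M)!` (`Equiv.Perm M`, `Nat.card_perm`). -/
def S_Non3 : Prop :=
  ∀ (G : Type) [Group G] [Finite G], Mono G → AG G → (Nat.card G).primeFactors.card ≤ 3 →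
    derivedSeries G 3 = ⊥ ∨ ∃ M : Subgroup G, M.Normal ∧ IsSimpleGroup M ∧ Nat.card G ≤ (Nat.card M).factorial

/-- (Red) The case of three primes. Allowed hypothesis: `S_Non3`. PROOF. `G` is AG (a `p`-subgroup lies in a Sylow
subgroup), and `primeFactors ⊆ S`. In the second case of `S_Non3` `M` is a finite simple member (`sat_inVar`,
`inVar_of_injective`), `Nat.card M ≤ N`, `Nat.card G ≤ N!` (`Nat.factorial_le`). -/
def S_Red : Prop :=
  ∀ (W : Set (FreeGroup ℕ)) (S : Finset ℕ) (N : ℕ), S.card ≤ 3 →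
    (∀ (G : Type) [Group G] [Finite G], Sat W G →
      ∀ p : ℕ, p.Prime → ∀ P : Sylow p G, ∀ x ∈ P, ∀ y ∈ P, x * y = y * x) →
    (∀ (G : Type) [Group G] [Finite G], Sat W G → (Nat.card G).primeFactors ⊆ S) →
    (∀ (G : Type) [Group G] [Finite G], Sat W G → IsSimpleGroup G → Nat.card G ≤ N) →
    ∀ (G : Type) [Group G] [Finite G], Sat W G → Mono G → derivedSeries G 3 = ⊥ ∨ Nat.card G ≤ N.factorial

/-! ## Part F: the theorem -/

/-- (Seq) Minimal counterexamples. Allowed hypotheses: `S_Law`, `S_Two`, `S_Wv`, `S_LF`, `S_Bd`. PROOF. As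
`FB3/Seq.lean` (copy it), with `B0 = B2 ∪ {v, (of 0)^n}`, `v` the word of `S_Law` for `N`, `B2` from `S_Two`. Every
`W`-group satisfies `B0` (`S_Wv`). A group with `B0` has: `x^n = 1`; `KLaw N`; every `closure {x, y}` satisfies `W`, so
it is finite and AG. So a finitely generated group with `B0` is finite (`S_LF`), and a finite group with `B0` is AG
(elements `x, y` of a `p`-subgroup: `closure {x, y}` is a `p`-group and AG). `N'` from `S_Bd`: a finite monolithic
group with `B0` has `derivedSeries G 3 = ⊥`, so `Cls n G`, or order `≤ N'`. Everything else as in `FB3/Seq.lean`. -/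
def S_Seq : Prop :=
  ∀ (n N : ℕ) (W : Set (FreeGroup ℕ)), 0 < n →
    (∀ (G : Type) [Group G], Sat W G →
      (∀ s : Finset G, Finite (Subgroup.closure (s : Set G))) ∧
      (∀ p : ℕ, p.Prime → ∀ P : Sylow p G, ∀ x ∈ P, ∀ y ∈ P, x * y = y * x) ∧ ∀ x : G, x ^ n = 1) →
    (∀ (G : Type) [Group G] [Finite G], Sat W G → Mono G → derivedSeries G 3 = ⊥ ∨ Nat.card G ≤ N) →
    (∀ B : Finset (FreeGroup ℕ), ¬ ∀ (G : Type) [Group G], (Sat W G ↔ Sat (B : Set (FreeGroup ℕ)) G)) →
    ∃ (N' : ℕ) (G : ℕ → FGrp), (∀ i, Cls n (G i).C ∨ Nat.card (G i).C ≤ N') ∧ (∀ i, Mono (G i).C) ∧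
      ∀ i j, i < j → ¬ InVar (G i).C (G j).C

/-- (Main) Allowed hypothesis: `S_Main` of FB4 (`Pool.Agent.Lib.MP_f44088_fc.S_Main`). PROOF. If `Cls n (G i)` for
infinitely many `i`: `S_Main` for this subsequence (`Nat.nth`, strictly increasing). Otherwise `Nat.card (G i) ≤ N'` for
infinitely many `i`; there are only finitely many group structures on the sets `Fin m`, `m ≤ N'` (a group structure is
determined by its multiplication table), so two of them, `i < j`, are isomorphic: `InVar` by `inVar_of_injective`. -/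
def S_MainB : Prop :=
  ∀ (n N' : ℕ), 0 < n → ∀ G : ℕ → FGrp, (∀ i, Cls n (G i).C ∨ Nat.card (G i).C ≤ N') →
    (∀ i, Mono (G i).C) → ∃ i j, i < j ∧ InVar (G i).C (G j).C

/-- (Fin) The theorem. Allowed hypotheses: `S_Exp` of FB4 (`Pool.Agent.Lib.MP_f44088_fc.S_Exp`), `S_Red`, `S_Seq`,
`S_MainB`. PROOF. `n` from `S_Exp`; the second case is reduced to the first by `S_Red`; `S_Seq` and `S_MainB`. -/
def S_Fin : Prop :=
  ∀ W : Set (FreeGroup ℕ), (∀ (G : Type) [Group G], Sat W G →
      (∀ s : Finset G, Finite (Subgroup.closure (s : Set G))) ∧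
      ∀ p : ℕ, p.Prime → ∀ P : Sylow p G, ∀ x ∈ P, ∀ y ∈ P, x * y = y * x) →
    ((∃ N : ℕ, ∀ (G : Type) [Group G] [Finite G], Sat W G → Mono G →
        derivedSeries G 3 = ⊥ ∨ Nat.card G ≤ N) ∨
      ∃ (S : Finset ℕ) (N : ℕ), S.card ≤ 3 ∧
        (∀ (G : Type) [Group G] [Finite G], Sat W G → (Nat.card G).primeFactors ⊆ S) ∧
        ∀ (G : Type) [Group G] [Finite G], Sat W G → IsSimpleGroup G → Nat.card G ≤ N) →
    ∃ B : Finset (FreeGroup ℕ), ∀ (G : Type) [Group G], (Sat W G ↔ Sat (B : Set (FreeGroup ℕ)) G)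

end Pool.Agent.Lib.MP_f44088_fd
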