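import Mathlib
import Pool.Agent.Lib.MP_f44088_al.FB5.Spec

/-! Project FB5 (MP_f44088_al), module Bd: the bound for the monolithic groups with nontrivial third derived
subgroup. -/

set_option autoImplicit false

open scoped commutatorElement

namespace Pool.Agent.Lib.MP_f44088_fd

open Pool.Agent.Lib.MP_f44088_fb (Sat InVar FGrp Cls Mono)
open Pool.Agent.Lib.MP_f44088_fc.DLAux (AG)

namespace BdAux

/-- a separating additive function -/
theorem exists_fun (hDua : Pool.Agent.Lib.MP_f44088_fc.S_Dua) {P : Type} [Group P] [Finite P]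
    (hab : ∀ x y : P, x * y = y * x) (p e : ℕ) (hp : p.Prime) (hexp : ∀ x : P, x ^ (p ^ e) = 1)
    (v : P) (hv : v ≠ 1) :
    ∃ l : P → ZMod (p ^ e), (∀ x y, l (x * y) = l x + l y) ∧ l v ≠ 0 := by
  let : CommGroup P := { (inferInstance : Group P) with mul_comm := hab }
  have h0 : ∀ x : Additive P, (p ^ e) • x = 0 := by
    intro x
    have h1 := hexp (Additive.toMul x)
    exact h1
  have hv' : (Additive.ofMul v) ≠ 0 := hv
  obtain ⟨f, hf⟩ := hDua p e hp (Additive P) h0 (Additive.ofMul v) hv'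
  exact ⟨fun x => f (Additive.ofMul x), fun x y => f.map_add (Additive.ofMul x) (Additive.ofMul y), hf⟩

theorem conj_mem' {G : Type} [Group G] {P : Subgroup G} (hP : P.Normal) (g : G) (x : P) :
    g⁻¹ * (x : G) * g ∈ P := by
  have h := hP.conj_mem (x : G) x.2 g⁻¹
  rwa [inv_inv] at h

/-- the number of elements of an abelian normal subgroup with a faithful functional -/
theorem card_bound {G : Type} [Group G] [Finite G] (P : Subgroup G) (hP : P.Normal)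
    (hab : ∀ x ∈ P, ∀ y ∈ P, x * y = y * x) (q : ℕ) (hq : q ≠ 0) (l : P → ZMod q)
    (hl : ∀ x y, l (x * y) = l x + l y)
    (hinj : ∀ z : P, (∀ g : G, l ⟨g⁻¹ * (z : G) * g, conj_mem' hP g z⟩ = 0) → z = 1) :
    Nat.card P ≤ q ^ P.index := by
  have : NeZero q := ⟨hq⟩
  let F : P → (G ⧸ P → ZMod q) := fun x c =>
    l ⟨(Quotient.out c)⁻¹ * (x : G) * (Quotient.out c), conj_mem' hP _ x⟩
  have hl1 : l 1 = 0 := by
    have h := hl 1 1
    rw [mul_one] at h
    exact left_eq_add.1 h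
  have hlinv : ∀ x, l x⁻¹ = - l x := by
    intro x
    have h := hl x⁻¹ x
    rw [inv_mul_cancel, hl1] at h
    exact (neg_eq_of_add_eq_zero_left h.symm).symm
  have hF : Function.Injective F := by
    intro x y hxy
    have h1 : x * y⁻¹ = 1 := by
      apply hinj
      intro g
      have h2 : l ⟨(Quotient.out (g : G ⧸ P))⁻¹ * (x : G) * (Quotient.out (g : G ⧸ P)), conj_mem' hP _ x⟩ =
          l ⟨(Quotient.out (g : G ⧸ P))⁻¹ * (y : G) * (Quotient.out (g : G ⧸ P)), conj_mem' hP _ y⟩ :=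
        congrFun hxy (g : G ⧸ P)
      obtain ⟨u, hu⟩ := QuotientGroup.mk_out_eq_mul P g
      have h3 : (⟨g⁻¹ * ((x * y⁻¹ : P) : G) * g, conj_mem' hP g (x * y⁻¹)⟩ : P) =
          ⟨(Quotient.out (g : G ⧸ P))⁻¹ * (x : G) * (Quotient.out (g : G ⧸ P)), conj_mem' hP _ x⟩ *
          (⟨(Quotient.out (g : G ⧸ P))⁻¹ * (y : G) * (Quotient.out (g : G ⧸ P)), conj_mem' hP _ y⟩)⁻¹ := by
        apply Subtype.ext
        show g⁻¹ * ((x : G) * (y : G)⁻¹) * g =
          ((Quotient.out (g : G ⧸ P))⁻¹ * (x : G) * (Quotient.out (g : G ⧸ P))) *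
          ((Quotient.out (g : G ⧸ P))⁻¹ * (y : G) * (Quotient.out (g : G ⧸ P)))⁻¹
        rw [hu]
        have h4 : g⁻¹ * ((x : G) * (y : G)⁻¹) * g ∈ P := conj_mem' hP g (x * y⁻¹)
        have h5 := hab _ h4 _ u.2
        calc g⁻¹ * ((x : G) * (y : G)⁻¹) * g
            = (u : G)⁻¹ * ((u : G) * (g⁻¹ * ((x : G) * (y : G)⁻¹) * g)) := by group
          _ = (u : G)⁻¹ * ((g⁻¹ * ((x : G) * (y : G)⁻¹) * g) * (u : G)) := by rw [h5]
          _ = ((g * (u : G))⁻¹ * (x : G) * (g * (u : G))) *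
              ((g * (u : G))⁻¹ * (y : G) * (g * (u : G)))⁻¹ := by group
      rw [h3, hl, hlinv, h2, add_neg_cancel]
    exact mul_inv_eq_one.1 h1
  have h6 : Nat.card P ≤ Nat.card (G ⧸ P → ZMod q) := Nat.card_le_card_of_injective F hF
  rw [Nat.card_fun, Nat.card_zmod] at h6
  exact h6

end BdAux

open BdAux

theorem Bd : S_Chf → S_Cen → Pool.Agent.Lib.MP_f44088_fc.S_Dua → S_Bd := by
  intro hChf hCen hDua n N hn
  refine ⟨N * n ^ N + N, ?_⟩
  intro G _ _ hxn hG hM hK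
  by_cases hD : derivedSeries G 3 = ⊥
  · exact Or.inl hD
  right
  let S : Set (Subgroup G) := {L | L.Normal ∧ L ≠ ⊥ ∧ L ≤ derivedSeries G 3}
  have hS : S.Nonempty := ⟨derivedSeries G 3, derivedSeries_normal G 3, hD, le_rfl⟩
  obtain ⟨M, ⟨hMn, hM0, hMD⟩, hMmin⟩ := (Set.toFinite S).exists_minimal hS
  have hMin : ∀ L : Subgroup G, L.Normal → L ≠ ⊥ → M ≤ L := by
    intro L hL hL0
    have h1 : L ⊓ M ≠ ⊥ := by
      intro h
      rcases hM.2 L M hL hMn h with h2 | h2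
      · exact hL0 h2
      · exact hM0 h2
    have h2 : (L ⊓ M).Normal := Subgroup.normal_inf_normal L M
    exact (hMmin ⟨h2, h1, inf_le_right.trans hMD⟩ inf_le_right).trans inf_le_left
  obtain ⟨C, hCn, hC, hCi0, hCi⟩ := hChf N G hK M ⊥ hMn inferInstance (bot_lt_iff_ne_bot.2 hM0) hMD
    (fun Z hZ _ hZM => by
      by_cases h : Z = ⊥
      · exact Or.inl h
      · exact Or.inr (le_antisymm hZM (hMin Z hZ h)))
  by_cases hC0 : C = ⊥
  · rw [hC0, Subgroup.index_bot] at hCi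
    omega
  have hMC : M ≤ C := hMin C hCn hC0
  have hMab : ∀ x ∈ M, ∀ y ∈ M, x * y = y * x := by
    intro x hx y hy
    have h1 := (hC y).1 (hMC hy) x hx
    rw [Subgroup.mem_bot] at h1
    exact commutatorElement_eq_one_iff_mul_comm.1 h1
  have hMc : Nat.card M ≠ 1 := fun h => hM0 (Subgroup.card_eq_one.1 h)
  obtain ⟨p, hp, hpd⟩ := Nat.exists_prime_and_dvd hMc
  have : Fact p.Prime := ⟨hp⟩
  obtain ⟨y, hy⟩ := exists_prime_orderOf_dvd_card' (G := M) p hpd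
  let A : Subgroup G :=
    { carrier := {z | z ∈ M ∧ ∃ j : ℕ, z ^ (p ^ j) = 1}
      one_mem' := ⟨one_mem _, 0, one_pow _⟩
      mul_mem' := by
        rintro a b ⟨ha, i, hi⟩ ⟨hb, j, hj⟩
        refine ⟨mul_mem ha hb, i + j, ?_⟩
        have hc : Commute a b := hMab a ha b hb
        rw [hc.mul_pow, pow_add, pow_mul, hi, one_pow, one_mul, mul_comm (p ^ i), pow_mul, hj,
          one_pow]
      inv_mem' := by
        rintro a ⟨ha, i, hi⟩
        exact ⟨inv_mem ha, i, by rw [inv_pow, hi, inv_one]⟩ }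
  have hAn : A.Normal := by
    refine ⟨?_⟩
    rintro a ⟨ha, i, hi⟩ g
    refine ⟨hMn.conj_mem a ha g, i, ?_⟩
    rw [conj_pow, hi, mul_one, mul_inv_cancel]
  have hA0 : A ≠ ⊥ := by
    intro hA
    have h1 : (y : G) ∈ A := by
      refine ⟨y.2, 1, ?_⟩
      rw [pow_one, ← hy]
      have h2 := pow_orderOf_eq_one y
      exact congrArg Subtype.val h2
    rw [hA, Subgroup.mem_bot] at h1
    have h3 : y = 1 := Subtype.ext h1
    rw [h3, orderOf_one] at hy
    exact hp.one_lt.ne hy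
  have hMA : M ≤ A := hMin A hAn hA0
  have hMp : IsPGroup p M := by
    rintro ⟨a, ha⟩
    obtain ⟨_, i, hi⟩ := hMA ha
    exact ⟨i, Subtype.ext hi⟩
  obtain ⟨P, hPn, hMP, hPp, _, hPc⟩ := hCen G hM hG p hp M hMn hM0 hMp
  have hCP : C ≤ P := by
    intro g hg
    apply hPc
    intro a ha
    have h1 := (hC g).1 hg a ha
    rw [Subgroup.mem_bot] at h1
    exact commutatorElement_eq_one_iff_mul_comm.1 h1
  have hPi : P.index ≤ N :=
    (Nat.le_of_dvd (Nat.pos_of_ne_zero hCi0) (Subgroup.index_dvd_of_le hCP)).trans hCi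
  have hPab := hG p hp P hPp
  let e : ℕ := n.factorization p
  have hexp : ∀ x : P, x ^ (p ^ e) = 1 := by
    intro x
    obtain ⟨j, hj⟩ := hPp x
    have h1 : orderOf x ∣ p ^ j := orderOf_dvd_of_pow_eq_one hj
    obtain ⟨i, _, hi⟩ := (Nat.dvd_prime_pow hp).1 h1
    have h2 : orderOf x ∣ n := orderOf_dvd_of_pow_eq_one (Subtype.ext (hxn x.1))
    rw [hi] at h2
    have h3 : i ≤ e := (hp.pow_dvd_iff_le_factorization hn.ne').1 h2
    apply orderOf_dvd_iff_pow_eq_one.1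
    rw [hi]
    exact pow_dvd_pow p h3
  have hpe : p ^ e ≤ n := Nat.le_of_dvd hn (Nat.ordProj_dvd n p)
  have hpe0 : p ^ e ≠ 0 := (pow_pos hp.pos e).ne'
  obtain ⟨v, hv, hv1⟩ : ∃ v ∈ M, v ≠ 1 := by
    by_contra hcon
    apply hM0
    rw [eq_bot_iff]
    intro v hv
    rw [Subgroup.mem_bot]
    by_contra hv1
    exact hcon ⟨v, hv, hv1⟩
  obtain ⟨l, hl, hlv⟩ := exists_fun hDua (P := P)
    (fun x y => Subtype.ext (hPab x.1 x.2 y.1 y.2)) p e hp hexp ⟨v, hMP hv⟩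
    (fun h => hv1 (congrArg Subtype.val h))
  have hl1 : l 1 = 0 := by
    have h := hl 1 1
    rw [mul_one] at h
    exact left_eq_add.1 h
  have hlinv : ∀ x, l x = 0 → l x⁻¹ = 0 := by
    intro x hx
    have h := hl x⁻¹ x
    rw [inv_mul_cancel, hl1, hx, add_zero] at h
    exact h.symm
  let K0 : Subgroup G :=
    { carrier := {z | ∃ hz : z ∈ P, ∀ g : G, l ⟨g⁻¹ * z * g, conj_mem' hPn g ⟨z, hz⟩⟩ = 0}
      one_mem' := by
        refine ⟨one_mem _, fun g => ?_⟩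
        have h1 : (⟨g⁻¹ * 1 * g, conj_mem' hPn g ⟨1, one_mem _⟩⟩ : P) = 1 := Subtype.ext (by
          show g⁻¹ * 1 * g = 1
          group)
        rw [h1, hl1]
      mul_mem' := by
        rintro a b ⟨ha, ha'⟩ ⟨hb, hb'⟩
        refine ⟨mul_mem ha hb, fun g => ?_⟩
        have h1 : (⟨g⁻¹ * (a * b) * g, conj_mem' hPn g ⟨a * b, mul_mem ha hb⟩⟩ : P) =
            ⟨g⁻¹ * a * g, conj_mem' hPn g ⟨a, ha⟩⟩ * ⟨g⁻¹ * b * g, conj_mem' hPn g ⟨b, hb⟩⟩ :=
          Subtype.ext (by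
            show g⁻¹ * (a * b) * g = (g⁻¹ * a * g) * (g⁻¹ * b * g)
            group)
        rw [h1, hl, ha' g, hb' g, add_zero]
      inv_mem' := by
        rintro a ⟨ha, ha'⟩
        refine ⟨inv_mem ha, fun g => ?_⟩
        have h1 : (⟨g⁻¹ * a⁻¹ * g, conj_mem' hPn g ⟨a⁻¹, inv_mem ha⟩⟩ : P) =
            (⟨g⁻¹ * a * g, conj_mem' hPn g ⟨a, ha⟩⟩)⁻¹ :=
          Subtype.ext (by
            show g⁻¹ * a⁻¹ * g = (g⁻¹ * a * g)⁻¹
            group)
        rw [h1]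
        exact hlinv _ (ha' g) }
  have hK0n : K0.Normal := by
    refine ⟨?_⟩
    rintro a ⟨ha, ha'⟩ h
    refine ⟨hPn.conj_mem a ha h, fun g => ?_⟩
    have h1 : (⟨g⁻¹ * (h * a * h⁻¹) * g, conj_mem' hPn g ⟨h * a * h⁻¹, hPn.conj_mem a ha h⟩⟩ : P) =
        ⟨(h⁻¹ * g)⁻¹ * a * (h⁻¹ * g), conj_mem' hPn (h⁻¹ * g) ⟨a, ha⟩⟩ :=
      Subtype.ext (by
        show g⁻¹ * (h * a * h⁻¹) * g = (h⁻¹ * g)⁻¹ * a * (h⁻¹ * g)
        group)
    rw [h1]
    exact ha' _
  have hK0 : K0 = ⊥ := by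
    by_contra h
    obtain ⟨hz, hz'⟩ := hMin K0 hK0n h hv
    apply hlv
    have h1 := hz' 1
    have h2 : (⟨(1 : G)⁻¹ * v * 1, conj_mem' hPn 1 ⟨v, hz⟩⟩ : P) = ⟨v, hMP hv⟩ :=
      Subtype.ext (by
        show (1 : G)⁻¹ * v * 1 = v
        group)
    rw [h2] at h1
    exact h1
  have hcard : Nat.card P ≤ (p ^ e) ^ P.index := by
    refine card_bound P hPn hPab (p ^ e) hpe0 l hl ?_
    intro z hz
    have h1 : (z : G) ∈ K0 := ⟨z.2, hz⟩
    rw [hK0, Subgroup.mem_bot] at h1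
    exact Subtype.ext h1
  have hcard2 : Nat.card P ≤ n ^ N :=
    hcard.trans ((Nat.pow_le_pow_left hpe _).trans (Nat.pow_le_pow_right hn hPi))
  have h7 : Nat.card P * P.index = Nat.card G := P.card_mul_index
  rw [← h7]
  calc Nat.card P * P.index ≤ n ^ N * N := Nat.mul_le_mul hcard2 hPi
    _ = N * n ^ N := Nat.mul_comm _ _
    _ ≤ N * n ^ N + N := Nat.le_add_right _ _

end Pool.Agent.Lib.MP_f44088_fd
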