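import Mathlib
import Pool.Agent.Lib.MP_f44088_al.FB5.Spec

/-! Project FB5 (MP_f44088_al): chief factors in the third derived subgroup. -/

set_option autoImplicit false

open scoped commutatorElement

namespace Pool.Agent.Lib.MP_f44088_fd

namespace ChfAux

variable {G : Type} [Group G]

/-- the centralizer of `X` modulo `Y` -/
def Cz (X Y : Subgroup G) (hY : Y.Normal) : Subgroup G where
  carrier := {g | ∀ x ∈ X, ⁅x, g⁆ ∈ Y}
  mul_mem' := by
    intro a b ha hb x hx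
    have h : ⁅x, a * b⁆ = ⁅x, a⁆ * (a * ⁅x, b⁆ * a⁻¹) := by
      rw [commutatorElement_def, commutatorElement_def, commutatorElement_def]
      group
    show ⁅x, a * b⁆ ∈ Y
    rw [h]
    exact Y.mul_mem (ha x hx) (hY.conj_mem _ (hb x hx) a)
  one_mem' := by
    intro x _
    show ⁅x, (1 : G)⁆ ∈ Y
    rw [commutatorElement_one_right]
    exact Y.one_mem
  inv_mem' := by
    intro a ha x hx
    have h : ⁅x, a⁻¹⁆ = a⁻¹ * (⁅x, a⁆)⁻¹ * (a⁻¹)⁻¹ := by
      rw [commutatorElement_def, commutatorElement_def]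
      group
    show ⁅x, a⁻¹⁆ ∈ Y
    rw [h]
    exact hY.conj_mem _ (Y.inv_mem (ha x hx)) a⁻¹

theorem mem_Cz (X Y : Subgroup G) (hY : Y.Normal) (g : G) :
    g ∈ Cz X Y hY ↔ ∀ x ∈ X, ⁅x, g⁆ ∈ Y := Iff.rfl

theorem normal_Cz (X Y : Subgroup G) (hX : X.Normal) (hY : Y.Normal) : (Cz X Y hY).Normal := by
  refine ⟨fun g hg h => ?_⟩
  rw [mem_Cz] at hg ⊢
  intro x hx
  have e : ⁅x, h * g * h⁻¹⁆ = h * ⁅h⁻¹ * x * (h⁻¹)⁻¹, g⁆ * h⁻¹ := by
    rw [commutatorElement_def, commutatorElement_def]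
    group
  rw [e]
  exact hY.conj_mem _ (hg _ (hX.conj_mem x hx h⁻¹)) h

theorem main (hK : S_KK) (X Y : Subgroup G) (hX : X.Normal) (hY : Y.Normal) (hlt : Y < X)
    (hmin : ∀ Z : Subgroup G, Z.Normal → Y ≤ Z → Z ≤ X → Z = Y ∨ Z = X) (L : List G) :
    (∀ z ∈ L, z ∉ Cz X Y hY) → ∀ H : Subgroup G, H.Normal → (∀ h, h ∈ H ↔ K L h) →
    ¬ X ≤ H ⊔ Y := by
  induction L with
  | nil =>
    intro _ H _ hH hle
    have h1 : H = ⊥ := by
      rw [eq_bot_iff]
      intro h hh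
      exact Subgroup.mem_bot.2 ((hH h).1 hh)
    rw [h1, bot_sup_eq] at hle
    exact (lt_of_lt_of_le hlt hle).false
  | cons z L ih =>
    intro hz H' hH'n hH' hle
    obtain ⟨H, hHn, hH⟩ := hK G L
    have ih' := ih (fun y hy => hz y (List.mem_cons_of_mem z hy)) H hHn hH
    set T : Subgroup G := Subgroup.normalClosure ((fun x => ⁅x, z⁆) '' (X : Set G)) with hT
    have hTX : T ≤ X := by
      apply Subgroup.normalClosure_le_normal
      rintro _ ⟨x, hx, rfl⟩
      show ⁅x, z⁆ ∈ X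
      have e : ⁅x, z⁆ = x * (z * x⁻¹ * z⁻¹) := by
        rw [commutatorElement_def]
        group
      rw [e]
      exact X.mul_mem hx (hX.conj_mem _ (X.inv_mem hx) z)
    have hTn : T.Normal := Subgroup.normalClosure_normal
    have hZn : (T ⊔ Y).Normal := Subgroup.sup_normal T Y
    rcases hmin (T ⊔ Y) hZn le_sup_right (sup_le hTX hlt.le) with h | h
    · apply hz z List.mem_cons_self
      rw [mem_Cz]
      intro x hx
      have h1 : ⁅x, z⁆ ∈ T := Subgroup.subset_normalClosure ⟨x, hx, rfl⟩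
      have h2 : T ≤ Y := by
        rw [← h]
        exact le_sup_left
      exact h2 h1
    · apply ih'
      have hHYn : (H ⊔ Y).Normal := Subgroup.sup_normal H Y
      have hTH : T ≤ H ⊔ Y := by
        apply Subgroup.normalClosure_le_normal
        rintro _ ⟨x, hx, rfl⟩
        show ⁅x, z⁆ ∈ H ⊔ Y
        obtain ⟨k, hk, u, hu, rfl⟩ := Subgroup.mem_sup_of_normal_right.1 (hle hx)
        have e : ⁅k * u, z⁆ = k * (u * (z * u⁻¹ * z⁻¹)) * k⁻¹ * ⁅k, z⁆ := by
          rw [commutatorElement_def, commutatorElement_def]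
          group
        rw [e]
        have h1 : k * (u * (z * u⁻¹ * z⁻¹)) * k⁻¹ ∈ Y :=
          hY.conj_mem _ (Y.mul_mem hu (hY.conj_mem _ (Y.inv_mem hu) z)) k
        have h2 : ⁅k, z⁆ ∈ H := by
          have h3 : K (z :: L) k := (hH' k).1 hk
          have h4 : K L ⁅k, 1 * z * 1⁻¹⁆ := h3 1
          rw [one_mul, inv_one, mul_one] at h4
          exact (hH _).2 h4
        exact (H ⊔ Y).mul_mem (Subgroup.mem_sup_right h1) (Subgroup.mem_sup_left h2)
      rw [← h]
      exact sup_le hTH le_sup_right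

theorem mem_prs (N : ℕ) (x : ℕ → G) (z : G) :
    z ∈ prs N x ↔ ∃ j, j < N + 1 ∧ ∃ i, i < j ∧ x i * (x j)⁻¹ = z := by
  unfold prs
  rw [List.mem_flatMap]
  constructor
  · rintro ⟨j, hj, h⟩
    obtain ⟨i, hi, h⟩ := List.mem_map.1 h
    exact ⟨j, List.mem_range.1 hj, i, List.mem_range.1 hi, h⟩
  · rintro ⟨j, hj, i, hi, h⟩
    exact ⟨j, List.mem_range.2 hj, List.mem_map.2 ⟨i, List.mem_range.2 hi, h⟩⟩

theorem exists_emb (N : ℕ) (A : Type) [Nonempty A] (h : ¬ (Nat.card A ≠ 0 ∧ Nat.card A ≤ N)) :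
    Nonempty (Fin (N + 1) ↪ A) := by
  by_cases hf : Finite A
  · have : Fintype A := Fintype.ofFinite A
    apply Function.Embedding.nonempty_of_card_le
    rw [Fintype.card_fin]
    have h1 : Nat.card A ≠ 0 := Nat.card_pos.ne'
    have h2 : ¬ Nat.card A ≤ N := fun h3 => h ⟨h1, h3⟩
    rw [Nat.card_eq_fintype_card] at h2
    omega
  · have hi : Infinite A := not_finite_iff_infinite.1 hf
    exact ⟨(Fin.valEmbedding).trans (Infinite.natEmbedding A)⟩

end ChfAux

open ChfAux in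
theorem Chf : S_KK → S_Chf := by
  intro hK N G _ hlaw X Y hX hY hlt hD hmin
  have hCn := normal_Cz X Y hX hY
  have key : (Cz X Y hY).index ≠ 0 ∧ (Cz X Y hY).index ≤ N := by
    by_contra hc
    obtain ⟨f⟩ := exists_emb N (G ⧸ Cz X Y hY) hc
    let x : ℕ → G := fun i => if h : i < N + 1 then (f ⟨i, h⟩).out else 1
    have hx : ∀ (i : ℕ) (h : i < N + 1), ((x i : G) : G ⧸ Cz X Y hY) = f ⟨i, h⟩ := by
      intro i h
      show (((if h : i < N + 1 then (f ⟨i, h⟩).out else 1 : G)) : G ⧸ Cz X Y hY) = f ⟨i, h⟩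
      rw [dif_pos h]
      exact QuotientGroup.out_eq' _
    obtain ⟨H, hHn, hH⟩ := hK G (prs N x)
    refine main hK X Y hX hY hlt hmin (prs N x) ?_ H hHn hH ?_
    · intro z hz hzC
      obtain ⟨j, hj, i, hi, rfl⟩ := (mem_prs N x z).1 hz
      have h1 : ((x i * (x j)⁻¹ : G) : G ⧸ Cz X Y hY) = 1 :=
        (QuotientGroup.eq_one_iff _).2 hzC
      rw [QuotientGroup.mk_mul, QuotientGroup.mk_inv, mul_inv_eq_one, hx i (by omega), hx j hj] at h1
      have h2 := f.injective h1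
      have h3 : i = j := congrArg Fin.val h2
      omega
    · refine le_trans (fun h hh => ?_) (le_sup_left (a := H) (b := Y))
      exact (hH h).2 (hlaw x h (hD hh))
  exact ⟨Cz X Y hY, hCn, mem_Cz X Y hY, key.1, key.2⟩

end Pool.Agent.Lib.MP_f44088_fd
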