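import Pool.Agent.Lib.MP_f44088_al.FB5.Spec

set_option autoImplicit false

namespace Pool.Agent.Lib.MP_f44088_fd

open Pool.Agent.Lib.MP_f44088_fb (Sat InVar FGrp Cls Mono)

theorem Fin : Pool.Agent.Lib.MP_f44088_fc.S_Exp → S_Red → S_Seq → S_MainB → S_Fin := by
  intro hExp hRed hSeq hMain W hW hcase
  obtain ⟨n, hn, hexp⟩ := hExp W (fun G _ hG => (hW G hG).1)
  have hyp : ∀ (G : Type) [Group G], Sat W G →
      (∀ s : Finset G, Finite (Subgroup.closure (s : Set G))) ∧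
      (∀ p : ℕ, p.Prime → ∀ P : Sylow p G, ∀ x ∈ P, ∀ y ∈ P, x * y = y * x) ∧ ∀ x : G, x ^ n = 1 := by
    intro G _ hG
    obtain ⟨h1, h2⟩ := hW G hG
    exact ⟨h1, h2, hexp G hG⟩
  have hN : ∃ N : ℕ, ∀ (G : Type) [Group G] [Finite G], Sat W G → Mono G →
      derivedSeries G 3 = ⊥ ∨ Nat.card G ≤ N := by
    rcases hcase with h | ⟨S, N, hS, hp, hsimp⟩
    · exact h
    · exact ⟨N.factorial, hRed W S N hS (fun G _ _ hG => (hW G hG).2) hp hsimp⟩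
  obtain ⟨N, hN⟩ := hN
  by_contra hcon
  have hno : ∀ B : Finset (FreeGroup ℕ),
      ¬ ∀ (G : Type) [Group G], (Sat W G ↔ Sat (B : Set (FreeGroup ℕ)) G) := by
    intro B hB
    exact hcon ⟨B, hB⟩
  obtain ⟨N', G, h1, h2, h3⟩ := hSeq n N W hn hyp hN hno
  obtain ⟨i, j, hij, hv⟩ := hMain n N' hn G h1 h2
  exact h3 i j hij hv

end Pool.Agent.Lib.MP_f44088_fd
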