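import Pool.Agent.Lib.MP_f44088_al.FB5.Spec
import Mathlib.GroupTheory.Solvable
import Mathlib.GroupTheory.Commutator.Basic

/-!
MP_f44088_al, project FB5, module Ito: the product of two abelian subgroups is metabelian.
-/

set_option autoImplicit false

open scoped commutatorElement

namespace Pool.Agent.Lib.MP_f44088_fd

namespace ItoAux

/-- conjugation by an element of the first subgroup -/
theorem conjA {G : Type} [Group G] {A : Subgroup G} (hA : ∀ x ∈ A, ∀ y ∈ A, x * y = y * x)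
    {a a1 a2 b b2 : G} (ha : a ∈ A) (ha1 : a1 ∈ A) (ha2 : a2 ∈ A) (h : a1 * b * a1⁻¹ = b2 * a2) :
    a1 * ⁅a, b⁆ * a1⁻¹ = ⁅a, b2⁆ := by
  have e1 : a1 * ⁅a, b⁆ * a1⁻¹ = ⁅a1 * a * a1⁻¹, a1 * b * a1⁻¹⁆ := by
    simp only [commutatorElement_def]; group
  have e2 : a1 * a * a1⁻¹ = a := by rw [hA a1 ha1 a ha]; group
  have e3 : a2 * a⁻¹ = a⁻¹ * a2 := hA a2 ha2 a⁻¹ (inv_mem ha)
  rw [e1, e2, h, commutatorElement_def, commutatorElement_def]
  calc a * (b2 * a2) * a⁻¹ * (b2 * a2)⁻¹ = a * b2 * (a2 * a⁻¹) * (b2 * a2)⁻¹ := by group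
    _ = a * b2 * (a⁻¹ * a2) * (b2 * a2)⁻¹ := by rw [e3]
    _ = a * b2 * a⁻¹ * b2⁻¹ := by group

/-- conjugation by an element of the second subgroup -/
theorem conjB {G : Type} [Group G] {B : Subgroup G} (hB : ∀ x ∈ B, ∀ y ∈ B, x * y = y * x)
    {a a3 b b1 b3 : G} (hb : b ∈ B) (hb1 : b1 ∈ B) (hb3 : b3 ∈ B) (h : b1 * a * b1⁻¹ = a3 * b3) :
    b1 * ⁅a, b⁆ * b1⁻¹ = ⁅a3, b⁆ := by
  have e1 : b1 * ⁅a, b⁆ * b1⁻¹ = ⁅b1 * a * b1⁻¹, b1 * b * b1⁻¹⁆ := by
    simp only [commutatorElement_def]; group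
  have e2 : b1 * b * b1⁻¹ = b := by rw [hB b1 hb1 b hb]; group
  have e3 : b3 * b = b * b3 := hB b3 hb3 b hb
  rw [e1, e2, h, commutatorElement_def, commutatorElement_def]
  calc a3 * b3 * b * (a3 * b3)⁻¹ * b⁻¹ = a3 * (b3 * b) * (a3 * b3)⁻¹ * b⁻¹ := by group
    _ = a3 * (b * b3) * (a3 * b3)⁻¹ * b⁻¹ := by rw [e3]
    _ = a3 * b * a3⁻¹ * b⁻¹ := by group

end ItoAux

theorem Ito : S_Ito := by
  intro G _ A B hA hB hAB
  -- every element is also of the form `b a`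
  have hBA : ∀ g : G, ∃ b ∈ B, ∃ a ∈ A, g = b * a := by
    intro g
    obtain ⟨a, ha, b, hb, h⟩ := hAB g⁻¹
    exact ⟨b⁻¹, inv_mem hb, a⁻¹, inv_mem ha, by rw [← inv_inv g, h]; group⟩
  -- the commutators commute
  have hcc : ∀ a ∈ A, ∀ b ∈ B, ∀ a1 ∈ A, ∀ b1 ∈ B, ⁅a, b⁆ * ⁅a1, b1⁆ = ⁅a1, b1⁆ * ⁅a, b⁆ := by
    have key : ∀ a ∈ A, ∀ b ∈ B, ∀ a1 ∈ A, ∀ b1 ∈ B,
        (b1 * a1) * ⁅a, b⁆ * (b1 * a1)⁻¹ = (a1 * b1) * ⁅a, b⁆ * (a1 * b1)⁻¹ := by
      intro a ha b hb a1 ha1 b1 hb1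
      obtain ⟨b2, hb2, a2, ha2, h2⟩ := hBA (a1 * b * a1⁻¹)
      obtain ⟨a3, ha3, b3, hb3, h3⟩ := hAB (b1 * a * b1⁻¹)
      have e1 := ItoAux.conjA hA ha ha1 ha2 h2
      have e2 := ItoAux.conjB hB hb hb1 hb3 h3
      have e3 := ItoAux.conjB hB hb2 hb1 hb3 h3
      have e4 := ItoAux.conjA hA ha3 ha1 ha2 h2
      calc (b1 * a1) * ⁅a, b⁆ * (b1 * a1)⁻¹ = b1 * (a1 * ⁅a, b⁆ * a1⁻¹) * b1⁻¹ := by group
        _ = ⁅a3, b2⁆ := by rw [e1, e3]
        _ = a1 * (b1 * ⁅a, b⁆ * b1⁻¹) * a1⁻¹ := by rw [e2, e4]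
        _ = (a1 * b1) * ⁅a, b⁆ * (a1 * b1)⁻¹ := by group
    intro a ha b hb a1 ha1 b1 hb1
    have h := key a ha b hb a1⁻¹ (inv_mem ha1) b1⁻¹ (inv_mem hb1)
    have h' : ⁅a1, b1⁆ = (b1⁻¹ * a1⁻¹)⁻¹ * (a1⁻¹ * b1⁻¹) := by
      rw [commutatorElement_def]; group
    obtain ⟨c, hc⟩ : ∃ c, c = ⁅a, b⁆ := ⟨_, rfl⟩
    rw [h', ← hc]
    rw [← hc] at h
    obtain ⟨u, hu⟩ : ∃ u, u = b1⁻¹ * a1⁻¹ := ⟨_, rfl⟩
    obtain ⟨w, hw⟩ : ∃ w, w = a1⁻¹ * b1⁻¹ := ⟨_, rfl⟩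
    rw [← hu, ← hw] at h ⊢
    calc c * (u⁻¹ * w) = u⁻¹ * (u * c * u⁻¹) * w := by group
      _ = u⁻¹ * (w * c * w⁻¹) * w := by rw [h]
      _ = u⁻¹ * w * c := by group
  -- the subgroup generated by them
  obtain ⟨S, hS⟩ : ∃ S : Set G, S = {g | ∃ a ∈ A, ∃ b ∈ B, ⁅a, b⁆ = g} := ⟨_, rfl⟩
  obtain ⟨K, hK⟩ : ∃ K : Subgroup G, K = Subgroup.closure S := ⟨_, rfl⟩
  have hSS : ∀ x ∈ S, ∀ y ∈ S, x * y = y * x := by
    intro x hx y hy
    rw [hS] at hx hy
    obtain ⟨a, ha, b, hb, rfl⟩ := hx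
    obtain ⟨a1, ha1, b1, hb1, rfl⟩ := hy
    exact hcc a ha b hb a1 ha1 b1 hb1
  have hKc : ∀ x ∈ K, ∀ y ∈ K, x * y = y * x := by
    have h1 : K ≤ Subgroup.centralizer S := by
      rw [hK, Subgroup.closure_le]
      intro x hx
      exact Subgroup.mem_centralizer_iff.2 fun y hy => hSS y hy x hx
    intro x hx y hy
    have h2 : K ≤ Subgroup.centralizer {x} := by
      rw [hK, Subgroup.closure_le]
      intro z hz
      refine Subgroup.mem_centralizer_iff.2 fun y hy => ?_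
      rw [Set.mem_singleton_iff.1 hy]
      exact (Subgroup.mem_centralizer_iff.1 (h1 hx) z hz).symm
    exact Subgroup.mem_centralizer_iff.1 (h2 hy) x (Set.mem_singleton x)
  -- it is normal
  have hconj : ∀ g : G, ∀ x ∈ K, g * x * g⁻¹ ∈ K := by
    have hgen : ∀ g : G, (∀ s ∈ S, g * s * g⁻¹ ∈ K) → ∀ x ∈ K, g * x * g⁻¹ ∈ K := by
      intro g hg x hx
      have h1 : K ≤ K.comap (MulAut.conj g).toMonoidHom := by
        conv_lhs => rw [hK]
        rw [Subgroup.closure_le]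
        intro s hs
        exact hg s hs
      exact h1 hx
    intro g x hx
    obtain ⟨a1, ha1, b1, hb1, rfl⟩ := hAB g
    have hb : ∀ x ∈ K, b1 * x * b1⁻¹ ∈ K := by
      refine hgen b1 fun s hs => ?_
      rw [hS] at hs
      obtain ⟨a, ha, b, hb, rfl⟩ := hs
      obtain ⟨a3, ha3, b3, hb3, h3⟩ := hAB (b1 * a * b1⁻¹)
      rw [ItoAux.conjB hB hb hb1 hb3 h3, hK]
      exact Subgroup.subset_closure (by rw [hS]; exact ⟨a3, ha3, b, hb, rfl⟩)
    have ha : ∀ x ∈ K, a1 * x * a1⁻¹ ∈ K := by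
      refine hgen a1 fun s hs => ?_
      rw [hS] at hs
      obtain ⟨a, ha, b, hb, rfl⟩ := hs
      obtain ⟨b2, hb2, a2, ha2, h2⟩ := hBA (a1 * b * a1⁻¹)
      rw [ItoAux.conjA hA ha ha1 ha2 h2, hK]
      exact Subgroup.subset_closure (by rw [hS]; exact ⟨a, ha, b2, hb2, rfl⟩)
    have := ha _ (hb x hx)
    have e : a1 * b1 * x * (a1 * b1)⁻¹ = a1 * (b1 * x * b1⁻¹) * a1⁻¹ := by group
    rw [e]
    exact this
  have hKn : K.Normal := ⟨fun x hx g => hconj g x hx⟩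
  -- the quotient is abelian
  have hq : ∀ g h : G, (QuotientGroup.mk' K g) * (QuotientGroup.mk' K h) =
      (QuotientGroup.mk' K h) * (QuotientGroup.mk' K g) := by
    have hab : ∀ a ∈ A, ∀ b ∈ B, (QuotientGroup.mk' K a) * (QuotientGroup.mk' K b) =
        (QuotientGroup.mk' K b) * (QuotientGroup.mk' K a) := by
      intro a ha b hb
      have h1 : ⁅a, b⁆ ∈ K := by
        rw [hK]
        exact Subgroup.subset_closure (by rw [hS]; exact ⟨a, ha, b, hb, rfl⟩)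
      have h2 : QuotientGroup.mk' K ⁅a, b⁆ = 1 := (QuotientGroup.eq_one_iff _).2 h1
      rw [map_commutatorElement] at h2
      exact (commutatorElement_eq_one_iff_mul_comm).1 h2
    intro g h
    obtain ⟨a, ha, b, hb, rfl⟩ := hAB g
    obtain ⟨a', ha', b', hb', rfl⟩ := hAB h
    have e1 := hab a' ha' b hb
    have e2 := hab a ha b' hb'
    have e3 : (QuotientGroup.mk' K a) * (QuotientGroup.mk' K a') =
      (QuotientGroup.mk' K a') * (QuotientGroup.mk' K a) := by rw [← map_mul, hA a ha a' ha', map_mul]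
    have e4 : (QuotientGroup.mk' K b) * (QuotientGroup.mk' K b') =
      (QuotientGroup.mk' K b') * (QuotientGroup.mk' K b) := by rw [← map_mul, hB b hb b' hb', map_mul]
    simp only [map_mul]
    calc QuotientGroup.mk' K a * QuotientGroup.mk' K b * (QuotientGroup.mk' K a' * QuotientGroup.mk' K b')
        = QuotientGroup.mk' K a * (QuotientGroup.mk' K b * QuotientGroup.mk' K a') * QuotientGroup.mk' K b' := by
          group
      _ = QuotientGroup.mk' K a * (QuotientGroup.mk' K a' * QuotientGroup.mk' K b) * QuotientGroup.mk' K b' := by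
          rw [e1]
      _ = (QuotientGroup.mk' K a * QuotientGroup.mk' K a') * (QuotientGroup.mk' K b * QuotientGroup.mk' K b') := by
          group
      _ = (QuotientGroup.mk' K a' * QuotientGroup.mk' K a) * (QuotientGroup.mk' K b' * QuotientGroup.mk' K b) := by
          rw [e3, e4]
      _ = QuotientGroup.mk' K a' * (QuotientGroup.mk' K a * QuotientGroup.mk' K b') * QuotientGroup.mk' K b := by
          group
      _ = QuotientGroup.mk' K a' * (QuotientGroup.mk' K b' * QuotientGroup.mk' K a) * QuotientGroup.mk' K b := by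
          rw [e2]
      _ = QuotientGroup.mk' K a' * QuotientGroup.mk' K b' * (QuotientGroup.mk' K a * QuotientGroup.mk' K b) := by
          group
  have hD : derivedSeries G 1 ≤ K := by
    rw [derivedSeries_succ, derivedSeries_zero, Subgroup.commutator_le]
    intro g _ h _
    rw [← QuotientGroup.eq_one_iff]
    have : QuotientGroup.mk' K ⁅g, h⁆ = 1 := by
      rw [map_commutatorElement, commutatorElement_eq_one_iff_mul_comm]
      exact hq g h
    exact this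
  rw [derivedSeries_succ, eq_bot_iff]
  refine (Subgroup.commutator_mono hD hD).trans ?_
  rw [Subgroup.commutator_le]
  intro x hx y hy
  rw [Subgroup.mem_bot, commutatorElement_eq_one_iff_mul_comm]
  exact hKc x hx y hy

end Pool.Agent.Lib.MP_f44088_fd
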