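import Mathlib
import Pool.Agent.Lib.MP_f44088_al.FB5.Spec

/-! Project FB5 (MP_f44088_al), statement `KK`: the iterated commutator condition defines a normal subgroup. -/

set_option autoImplicit false

open scoped commutatorElement

namespace Pool.Agent.Lib.MP_f44088_fd

namespace KKAux

/-- a commutator is in the normal subgroup iff the images commute -/
theorem mem_iff {G : Type} [Group G] (H : Subgroup G) [H.Normal] (a b : G) :
    ⁅a, b⁆ ∈ H ↔ QuotientGroup.mk' H b * QuotientGroup.mk' H a = QuotientGroup.mk' H a * QuotientGroup.mk' H b := by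
  have h1 : QuotientGroup.mk' H ⁅a, b⁆ = 1 ↔ ⁅a, b⁆ ∈ H := by
    rw [QuotientGroup.mk'_apply, QuotientGroup.eq_one_iff]
  rw [← h1, map_commutatorElement, commutatorElement_eq_one_iff_mul_comm]
  exact eq_comm

/-- the subgroup for one more element -/
theorem step {G : Type} [Group G] (H : Subgroup G) [H.Normal] (z : G) :
    ∃ H' : Subgroup G, H'.Normal ∧ ∀ h, h ∈ H' ↔ ∀ y : G, ⁅h, y * z * y⁻¹⁆ ∈ H := by
  have key : ∀ h, h ∈ (Subgroup.centralizer (Set.range fun y : G => QuotientGroup.mk' H (y * z * y⁻¹))).comap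
      (QuotientGroup.mk' H) ↔ ∀ y : G, ⁅h, y * z * y⁻¹⁆ ∈ H := by
    intro h
    rw [Subgroup.mem_comap, Subgroup.mem_centralizer_iff]
    constructor
    · intro hh y
      rw [mem_iff]
      exact hh _ ⟨y, rfl⟩
    · rintro hh _ ⟨y, rfl⟩
      exact (mem_iff H h _).1 (hh y)
  refine ⟨_, ⟨fun n hn g => ?_⟩, key⟩
  rw [key] at hn ⊢
  intro y
  have h1 := hn (g⁻¹ * y)
  have h2 : ⁅g * n * g⁻¹, y * z * y⁻¹⁆ = g * ⁅n, g⁻¹ * y * z * (g⁻¹ * y)⁻¹⁆ * g⁻¹ := by
    rw [commutatorElement_def, commutatorElement_def]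
    group
  rw [h2]
  exact Subgroup.Normal.conj_mem inferInstance _ h1 g

end KKAux

open KKAux in
theorem KK : S_KK := by
  intro G _ L
  induction L with
  | nil =>
    refine ⟨⊥, inferInstance, fun h => ?_⟩
    rw [Subgroup.mem_bot]
    exact Iff.rfl
  | cons z L ih =>
    obtain ⟨H, hN, hH⟩ := ih
    obtain ⟨H', hN', hH'⟩ := step H z
    refine ⟨H', hN', fun h => ?_⟩
    rw [hH']
    exact forall_congr' fun y => hH _

end Pool.Agent.Lib.MP_f44088_fd
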