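import Pool.Agent.Lib.MP_f44088_al.FB5.Spec

/-! Project FB5 (MP_f44088_al), module Ker: a finitely generated group has a normal subgroup of finite index which is
contained in all normal subgroups of index at most `N`. -/

set_option autoImplicit false

namespace Pool.Agent.Lib.MP_f44088_fd

namespace KerAux

lemma finite_hom (G H : Type) [Group G] [Group H] [Finite H] (hG : Group.FG G) : Finite (G →* H) := by
  obtain ⟨S, hS⟩ := (Group.fg_def.1 hG)
  refine Finite.of_injective (fun (φ : G →* H) (s : S) => φ (s : G)) ?_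
  intro φ ψ h
  refine MonoidHom.eq_of_eqOn_dense hS ?_
  intro x hx
  exact congrFun h ⟨x, hx⟩

end KerAux

theorem Ker : S_Ker := by
  classical
  intro N G _ hG
  have := KerAux.finite_hom G (Equiv.Perm (Fin N)) hG
  refine ⟨⨅ φ : G →* Equiv.Perm (Fin N), φ.ker, ?_, ?_, ?_⟩
  · exact Subgroup.normal_iInf_normal fun φ => φ.normal_ker
  · refine Subgroup.index_iInf_ne_zero fun φ => ?_
    rw [Subgroup.index_ker]
    exact Nat.card_pos.ne'
  · intro C hC h0 hN
    have : C.FiniteIndex := ⟨h0⟩
    have : Fintype (G ⧸ C) := Fintype.ofFinite _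
    have hc : Fintype.card (G ⧸ C) ≤ Fintype.card (Fin N) := by
      rw [Fintype.card_fin, ← Nat.card_eq_fintype_card]
      exact hN
    obtain ⟨e⟩ := Function.Embedding.nonempty_of_card_le hc
    have hle : (⨅ φ : G →* Equiv.Perm (Fin N), φ.ker) ≤
        ((Equiv.Perm.viaEmbeddingHom e).comp (MulAction.toPermHom G (G ⧸ C))).ker := iInf_le _ _
    refine hle.trans ?_
    intro g hg
    rw [MonoidHom.mem_ker, MonoidHom.comp_apply] at hg
    have h1 : MulAction.toPermHom G (G ⧸ C) g = 1 :=
      Equiv.Perm.viaEmbeddingHom_injective e (hg.trans (map_one _).symm)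
    have h2 : g ∈ (MulAction.toPermHom G (G ⧸ C)).ker := h1
    rw [← Subgroup.normalCore_eq_ker] at h2
    exact Subgroup.normalCore_le C h2

end Pool.Agent.Lib.MP_f44088_fd
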