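import Mathlib
import Pool.Agent.Lib.MP_f44088_al.FB5.Spec

/-! Project FB5 (MP_f44088_al, architect helper15): local finiteness. -/

set_option autoImplicit false

open scoped commutatorElement

namespace Pool.Agent.Lib.MP_f44088_fd

open Pool.Agent.Lib.MP_f44088_fc.DLAux (AG ag_quot)

namespace LFAux

/-- a subgroup of index different from 0 in a group of finite index -/
theorem fin_quot_of {G : Type} [Group G] (H : Subgroup G) (h : Finite (G ⧸ H)) : H.index ≠ 0 := by
  have : H.FiniteIndex := Subgroup.finiteIndex_of_finite_quotient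
  exact this.index_ne_zero

/-- the third derived subgroup has finite index -/
theorem der_index (hF : Pool.Agent.Lib.MP_f44088_fb.S_FgF) (n : ℕ) (hn : 0 < n) (G : Type) [Group G]
    (hfg : Group.FG G) (hexp : ∀ x : G, x ^ n = 1) (m : ℕ) : (derivedSeries G m).index ≠ 0 := by
  apply fin_quot_of
  refine hF m n hn (G ⧸ derivedSeries G m) inferInstance ?_ ?_
  · intro x
    obtain ⟨g, rfl⟩ := QuotientGroup.mk'_surjective (derivedSeries G m) x
    rw [← map_pow, hexp g, map_one]
  · rw [← map_derivedSeries_eq (QuotientGroup.mk'_surjective (derivedSeries G m)) m,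
      Subgroup.map_eq_bot_iff, QuotientGroup.ker_mk']

/-- the commutator subgroup of a finitely generated subgroup of finite index and exponent `n` has
finite index -/
theorem comm_index (hF : Pool.Agent.Lib.MP_f44088_fb.S_FgF) (n : ℕ) (hn : 0 < n) (G : Type) [Group G]
    (hexp : ∀ x : G, x ^ n = 1) (R : Subgroup G) (hR : Group.FG R) (hRi : R.index ≠ 0) :
    ⁅R, R⁆.index ≠ 0 := by
  have hle : ⁅R, R⁆ ≤ R := (R.map_subtype_commutator).symm.trans_le (Subgroup.map_subtype_le _)
  have h1 : (derivedSeries R 1).index ≠ 0 :=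
    der_index hF n hn R hR (fun x => Subtype.ext (hexp x.1)) 1
  have h2 : derivedSeries R 1 ≤ ⁅R, R⁆.subgroupOf R := by
    rw [derivedSeries_one]
    intro x hx
    rw [Subgroup.mem_subgroupOf, ← R.map_subtype_commutator]
    exact ⟨x, hx, rfl⟩
  have h3 : (⁅R, R⁆.subgroupOf R).index ≠ 0 := by
    intro h
    have h4 := Subgroup.index_dvd_of_le h2
    rw [h, zero_dvd_iff] at h4
    exact h1 h4
  rw [← Subgroup.relIndex_mul_index hle]
  exact mul_ne_zero h3 hRi

/-- two elements of `R` commute modulo `Y` -/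
theorem comm_mem (hNil : S_Nil) {G : Type} [Group G] (R Y : Subgroup G) [Y.Normal]
    (hc : ∀ e ∈ ⁅R, R⁆, ∀ r ∈ R, ⁅e, r⁆ ∈ Y) (a b : G) (ha : a ∈ R) (hb : b ∈ R)
    (hfin : Finite (Subgroup.closure ({a, b} : Set G)))
    (hag : AG (Subgroup.closure ({a, b} : Set G))) : ⁅a, b⁆ ∈ Y := by
  have hHR : Subgroup.closure ({a, b} : Set G) ≤ R := by
    rw [Subgroup.closure_le]
    intro x hx
    rcases hx with rfl | rfl
    · exact ha
    · exact hb
  have haH : a ∈ Subgroup.closure ({a, b} : Set G) := Subgroup.subset_closure (Or.inl rfl)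
  have hbH : b ∈ Subgroup.closure ({a, b} : Set G) := Subgroup.subset_closure (Or.inr rfl)
  generalize hH : Subgroup.closure ({a, b} : Set G) = H at hfin hag hHR haH hbH
  let Y' : Subgroup H := Y.subgroupOf H
  have hmem : ∀ u : H, (u.1 ∈ Y ↔ QuotientGroup.mk' Y' u = 1) := by
    intro u
    rw [QuotientGroup.mk'_apply, QuotientGroup.eq_one_iff, Subgroup.mem_subgroupOf]
  have hnil : Group.IsNilpotent (H ⧸ Y') := by
    refine Subgroup.isNilpotent_of_ker_le_center (Abelianization.of (G := H ⧸ Y')) ?_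
    rw [Abelianization.ker_of, commutator_def, Subgroup.commutator_le]
    intro g1 _ g2 _
    obtain ⟨u, rfl⟩ := QuotientGroup.mk'_surjective Y' g1
    obtain ⟨v, rfl⟩ := QuotientGroup.mk'_surjective Y' g2
    rw [Subgroup.mem_center_iff]
    intro g3
    obtain ⟨w, rfl⟩ := QuotientGroup.mk'_surjective Y' g3
    have h1 : ⁅⁅u.1, v.1⁆, w.1⁆ ∈ Y :=
      hc _ (Subgroup.commutator_mem_commutator (hHR u.2) (hHR v.2)) _ (hHR w.2)
    have h2 : QuotientGroup.mk' Y' ⁅⁅u, v⁆, w⁆ = 1 := (hmem _).1 h1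
    rw [map_commutatorElement, map_commutatorElement, commutatorElement_eq_one_iff_mul_comm] at h2
    exact h2.symm
  have h3 := hNil (H ⧸ Y') hnil (ag_quot hag Y') (QuotientGroup.mk' Y' ⟨a, haH⟩)
    (QuotientGroup.mk' Y' ⟨b, hbH⟩)
  have h4 : QuotientGroup.mk' Y' ⁅(⟨a, haH⟩ : H), ⟨b, hbH⟩⁆ = 1 := by
    rw [map_commutatorElement, commutatorElement_eq_one_iff_mul_comm]
    exact h3
  exact (hmem _).2 h4

end LFAux

theorem LF : Pool.Agent.Lib.MP_f44088_fb.S_FgF → S_Chf → S_Nil → S_Max → S_Ker → S_LF := by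
  intro hF hChf hNil hMax hKer n N hn G _ hfg hexp h2 hK
  obtain ⟨R0, hR0n, hR0i, hR0⟩ := hKer N G hfg
  have hDi : (derivedSeries G 3).index ≠ 0 := LFAux.der_index hF n hn G hfg hexp 3
  set R : Subgroup G := R0 ⊓ derivedSeries G 3 with hR
  have hRn : R.Normal := inferInstance
  have hRi : R.index ≠ 0 := Subgroup.index_inf_ne_zero hR0i hDi
  have hRF : R.FiniteIndex := ⟨hRi⟩
  have hRfg : Group.FG R := Subgroup.fg_of_index_ne_zero R
  have hEi : ⁅R, R⁆.index ≠ 0 := LFAux.comm_index hF n hn G hexp R hRfg hRi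
  have hEF : ⁅R, R⁆.FiniteIndex := ⟨hEi⟩
  have hEfg : (⁅R, R⁆ : Subgroup G).FG :=
    (Group.fg_iff_subgroup_fg _).1 (Subgroup.fg_of_index_ne_zero ⁅R, R⁆)
  have hEn : (⁅R, R⁆ : Subgroup G).Normal := Subgroup.commutator_normal R R
  have hER : ⁅R, R⁆ ≤ R := (R.map_subtype_commutator).symm.trans_le (Subgroup.map_subtype_le _)
  have hE : (⁅R, R⁆ : Subgroup G) = ⊥ := by
    by_contra hne
    obtain ⟨Y, hYn, hYlt, hYmax⟩ := hMax G ⁅R, R⁆ hEn hEfg hne
    obtain ⟨C, hCn, hC, hCi, hCN⟩ := hChf N G hK ⁅R, R⁆ Y hEn hYn hYlt (hER.trans inf_le_right) hYmax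
    have hRC : R ≤ C := inf_le_left.trans (hR0 C hCn hCi hCN)
    apply hYlt.not_ge
    rw [Subgroup.commutator_le]
    intro a ha b hb
    exact LFAux.comm_mem hNil R Y (fun e he r hr => (hC r).1 (hRC hr) e he) a b ha hb
      (h2 a b).1 (h2 a b).2
  have hRd : derivedSeries R 1 = ⊥ := by
    rw [derivedSeries_one, eq_bot_iff]
    intro x hx
    have h1 : x.1 ∈ (⁅R, R⁆ : Subgroup G) := by
      rw [← R.map_subtype_commutator]
      exact ⟨x, hx, rfl⟩
    rw [hE, Subgroup.mem_bot] at h1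
    exact Subtype.ext h1
  have hRfin : Finite R := hF 1 n hn R hRfg (fun x => Subtype.ext (hexp x.1)) hRd
  have hcard : Nat.card G ≠ 0 := by
    rw [← Subgroup.card_mul_index R]
    exact mul_ne_zero Nat.card_pos.ne' hRi
  exact Nat.finite_of_card_ne_zero hcard

end Pool.Agent.Lib.MP_f44088_fd
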