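import Mathlib
import Pool.Agent.Lib.MP_f44088_al.FB5.Spec

/-! Project FB5 (MP_f44088_al), piece Law: the condition `KLaw N` is given by one word. -/

set_option autoImplicit false

open scoped commutatorElement

namespace Pool.Agent.Lib.MP_f44088_fd

open Pool.Agent.Lib.MP_f44088_fb

namespace LawAux

/-- the word for a list of words -/
def cw : List (FreeGroup ℕ) → ℕ → FreeGroup ℕ → FreeGroup ℕ
  | [], _, h => h
  | u :: U, m, h => cw U (m + 1) ⁅h, FreeGroup.of m * u * (FreeGroup.of m)⁻¹⁆

/-- only letters below `m` matter -/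
def Low (G : Type) [Group G] (m : ℕ) (w : FreeGroup ℕ) : Prop :=
  ∀ f g : ℕ → G, (∀ i < m, f i = g i) → FreeGroup.lift f w = FreeGroup.lift g w

theorem Low.mono {G : Type} [Group G] {m k : ℕ} {w : FreeGroup ℕ} (h : Low G m w) (hk : m ≤ k) :
    Low G k w :=
  fun f g hfg => h f g fun i hi => hfg i (lt_of_lt_of_le hi hk)

theorem low_of (G : Type) [Group G] {m i : ℕ} (hi : i < m) : Low G m (FreeGroup.of i) := by
  intro f g hfg
  simp only [FreeGroup.lift_apply_of]
  exact hfg i hi

theorem Low.mul {G : Type} [Group G] {m : ℕ} {v w : FreeGroup ℕ} (hv : Low G m v)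
    (hw : Low G m w) : Low G m (v * w) := by
  intro f g hfg
  rw [map_mul, map_mul, hv f g hfg, hw f g hfg]

theorem Low.inv {G : Type} [Group G] {m : ℕ} {v : FreeGroup ℕ} (hv : Low G m v) :
    Low G m v⁻¹ := by
  intro f g hfg
  rw [map_inv, map_inv, hv f g hfg]

theorem Low.comm {G : Type} [Group G] {m : ℕ} {v w : FreeGroup ℕ} (hv : Low G m v)
    (hw : Low G m w) : Low G m ⁅v, w⁆ := by
  intro f g hfg
  rw [map_commutatorElement, map_commutatorElement, hv f g hfg, hw f g hfg]

theorem claim (G : Type) [Group G] : ∀ (U : List (FreeGroup ℕ)) (m : ℕ) (h : FreeGroup ℕ),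
    (∀ u ∈ U, Low G m u) → Low G m h →
    ((∀ f : ℕ → G, FreeGroup.lift f (cw U m h) = 1) ↔
      ∀ f : ℕ → G, K (U.map (FreeGroup.lift f)) (FreeGroup.lift f h))
  | [], m, h, _, _ => Iff.rfl
  | u :: U, m, h, hU, hh => by
    have hu : Low G m u := hU u List.mem_cons_self
    have hU' : ∀ t ∈ U, Low G m t := fun t ht => hU t (List.mem_cons_of_mem u ht)
    have ih := claim G U (m + 1) ⁅h, FreeGroup.of m * u * (FreeGroup.of m)⁻¹⁆
      (fun t ht => (hU' t ht).mono (Nat.le_succ m))
      ((hh.mono (Nat.le_succ m)).comm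
        (((low_of G (Nat.lt_succ_self m)).mul (hu.mono (Nat.le_succ m))).mul
          (low_of G (Nat.lt_succ_self m)).inv))
    rw [show cw (u :: U) m h = cw U (m + 1) ⁅h, FreeGroup.of m * u * (FreeGroup.of m)⁻¹⁆ from rfl,
      ih]
    constructor
    · intro H f
      show ∀ y : G, K (U.map (FreeGroup.lift f))
        ⁅FreeGroup.lift f h, y * FreeGroup.lift f u * y⁻¹⁆
      intro y
      have h1 := H (Function.update f m y)
      have hag : ∀ i < m, Function.update f m y i = f i := fun i hi =>
        Function.update_of_ne (ne_of_lt hi) _ _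
      rw [map_commutatorElement, map_mul, map_mul, map_inv, FreeGroup.lift_apply_of,
        Function.update_self, hh _ f hag, hu _ f hag] at h1
      have h2 : U.map (FreeGroup.lift (Function.update f m y)) = U.map (FreeGroup.lift f) :=
        List.map_congr_left fun t ht => hU' t ht _ f hag
      rw [h2] at h1
      exact h1
    · intro H f
      have h1 : ∀ y : G, K (U.map (FreeGroup.lift f))
        ⁅FreeGroup.lift f h, y * FreeGroup.lift f u * y⁻¹⁆ := H f
      rw [map_commutatorElement, map_mul, map_mul, map_inv, FreeGroup.lift_apply_of]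
      exact h1 (f m)

theorem map_prs {G H : Type} [Group G] [Group H] (φ : G →* H) (N : ℕ) (x : ℕ → G) :
    (prs N x).map φ = prs N fun i => φ (x i) := by
  unfold prs
  rw [List.map_flatMap]
  congr 1
  funext j
  rw [List.map_map]
  congr 1
  funext i
  simp only [Function.comp_apply, map_mul, map_inv]

theorem low_prs (G : Type) [Group G] (N : ℕ) :
    ∀ u ∈ prs N (fun i => FreeGroup.of (8 + i)), Low G (9 + N) u := by
  intro u hu
  unfold prs at hu
  rw [List.mem_flatMap] at hu
  obtain ⟨j, hj, hu⟩ := hu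
  rw [List.mem_map] at hu
  obtain ⟨i, hi, rfl⟩ := hu
  rw [List.mem_range] at hi hj
  exact (low_of G (by omega)).mul (low_of G (by omega)).inv

theorem low_w (G : Type) [Group G] : Low G 8 D3Aux.w := by
  unfold D3Aux.w
  exact (((low_of G (by norm_num)).comm (low_of G (by norm_num))).comm
    ((low_of G (by norm_num)).comm (low_of G (by norm_num)))).comm
    (((low_of G (by norm_num)).comm (low_of G (by norm_num))).comm
    ((low_of G (by norm_num)).comm (low_of G (by norm_num))))

end LawAux

open LawAux in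
/-- the condition `KLaw N` is given by one word -/
theorem Law (hKK : S_KK) : S_Law := by
  intro N
  refine ⟨cw (prs N fun i => FreeGroup.of (8 + i)) (9 + N) D3Aux.w, ?_⟩
  intro G _
  rw [claim G _ _ _ (low_prs G N) ((low_w G).mono (by omega))]
  have hm : ∀ f : ℕ → G, (prs N fun i => FreeGroup.of (8 + i)).map (FreeGroup.lift f) =
      prs N fun i => f (8 + i) := by
    intro f
    rw [map_prs]
    simp only [FreeGroup.lift_apply_of]
  constructor
  · intro H x
    obtain ⟨S, _, hS⟩ := hKK G (prs N x)
    intro h hh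
    rw [← hS]
    have hle : derivedSeries G 3 ≤ S := by
      rw [← D3Aux.closure_V G 3, Subgroup.closure_le]
      intro g hg
      obtain ⟨a, ⟨a1, ⟨x0, _, x1, _, rfl⟩, a2, ⟨x2, _, x3, _, rfl⟩, rfl⟩,
        b, ⟨b1, ⟨x4, _, x5, _, rfl⟩, b2, ⟨x6, _, x7, _, rfl⟩, rfl⟩, rfl⟩ := hg
      have h1 := H (fun i => if i = 0 then x0 else if i = 1 then x1 else if i = 2 then x2 else
        if i = 3 then x3 else if i = 4 then x4 else if i = 5 then x5 else if i = 6 then x6 else
        if i = 7 then x7 else x (i - 8))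
      rw [hm, D3Aux.lift_w] at h1
      show _ ∈ S
      rw [hS]
      have h2 : ∀ i : ℕ, (if 8 + i = 0 then x0 else if 8 + i = 1 then x1 else if 8 + i = 2 then x2
        else if 8 + i = 3 then x3 else if 8 + i = 4 then x4 else if 8 + i = 5 then x5 else
        if 8 + i = 6 then x6 else if 8 + i = 7 then x7 else x (8 + i - 8)) = x i := by
        intro i
        rw [if_neg (by omega), if_neg (by omega), if_neg (by omega), if_neg (by omega),
          if_neg (by omega), if_neg (by omega), if_neg (by omega), if_neg (by omega),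
          Nat.add_sub_cancel_left]
      simp only [h2] at h1
      simpa using h1
    exact hle hh
  · intro H f
    rw [hm]
    apply H
    rw [D3Aux.lift_w, ← D3Aux.closure_V G 3]
    apply Subgroup.subset_closure
    exact ⟨_, ⟨_, ⟨f 0, trivial, f 1, trivial, rfl⟩, _, ⟨f 2, trivial, f 3, trivial, rfl⟩, rfl⟩,
      _, ⟨_, ⟨f 4, trivial, f 5, trivial, rfl⟩, _, ⟨f 6, trivial, f 7, trivial, rfl⟩, rfl⟩, rfl⟩

end Pool.Agent.Lib.MP_f44088_fd
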