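import Pool.Agent.Lib.MP_f44088_al.FB5.Spec

/-! Project FB5 (MP_f44088_al), module MainB: the infinite pigeonhole. -/

set_option autoImplicit false

namespace Pool.Agent.Lib.MP_f44088_fd

open Pool.Agent.Lib.MP_f44088_fb (Sat InVar FGrp Cls Mono inVar_of_injective)

namespace MainBAux

/-- a multiplication table -/
abbrev Tab (N : ℕ) : Type := Σ m : Fin (N + 1), Fin (m : ℕ) → Fin (m : ℕ) → Fin (m : ℕ)

/-- the group `C` has the table `T` -/
def Rep {N : ℕ} (C : Type) [Group C] (T : Tab N) : Prop :=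
  ∃ e : C ≃ Fin (T.1 : ℕ), ∀ x y, e (x * y) = T.2 (e x) (e y)

theorem rep_exists (N : ℕ) (C : Type) [Group C] [Finite C] (h : Nat.card C ≤ N) :
    ∃ T : Tab N, Rep C T := by
  let e : C ≃ Fin (Nat.card C) := Finite.equivFin C
  exact ⟨⟨⟨Nat.card C, Nat.lt_succ_of_le h⟩, fun a b => e (e.symm a * e.symm b)⟩, e, fun x y => by simp⟩

theorem inVar_of_rep {N : ℕ} {C₁ C₂ : Type} [Group C₁] [Group C₂] {T : Tab N} (h₁ : Rep C₁ T)
    (h₂ : Rep C₂ T) : InVar C₁ C₂ := by
  obtain ⟨e₁, he₁⟩ := h₁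
  obtain ⟨e₂, he₂⟩ := h₂
  refine inVar_of_injective (MonoidHom.mk' (fun x => e₂.symm (e₁ x)) ?_) ?_
  · intro x y
    apply e₂.injective
    rw [he₂, Equiv.apply_symm_apply, Equiv.apply_symm_apply, Equiv.apply_symm_apply, he₁]
  · intro x y hxy
    exact e₁.injective (e₂.symm.injective hxy)

end MainBAux

open MainBAux in
theorem MainB : Pool.Agent.Lib.MP_f44088_fc.S_Main → S_MainB := by
  intro hMain n N' hn G hG hM
  by_cases hA : {i : ℕ | Cls n (G i).C}.Infinite
  · have hs : StrictMono (Nat.nth (fun i => Cls n (G i).C)) := Nat.nth_strictMono hA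
    obtain ⟨i, j, hij, h⟩ := hMain n hn (fun k => G (Nat.nth (fun i => Cls n (G i).C) k))
      (fun k => Nat.nth_mem_of_infinite hA k) (fun k => hM _)
    exact ⟨_, _, hs hij, h⟩
  · have hB : {i : ℕ | Nat.card (G i).C ≤ N'}.Infinite := by
      intro hfin
      apply Set.infinite_univ (α := ℕ)
      refine ((Set.not_infinite.1 hA).union hfin).subset ?_
      intro i _
      exact hG i
    haveI : Infinite {i : ℕ | Nat.card (G i).C ≤ N'} := Set.infinite_coe_iff.2 hB
    choose T hT using fun i : {i : ℕ | Nat.card (G i).C ≤ N'} => rep_exists N' (G i).C i.2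
    obtain ⟨i, j, hij, h⟩ := Finite.exists_ne_map_eq_of_infinite T
    have hij' : (i : ℕ) ≠ (j : ℕ) := fun h' => hij (Subtype.ext h')
    have hi := hT i
    have hj := hT j
    rw [← h] at hj
    rcases lt_or_gt_of_ne hij' with h1 | h1
    · exact ⟨i, j, h1, inVar_of_rep hi hj⟩
    · exact ⟨j, i, h1, inVar_of_rep hj hi⟩

end Pool.Agent.Lib.MP_f44088_fd
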