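import Pool.Agent.Lib.MP_f44088_al.FB5.Spec
import Mathlib.Order.Zorn
import Mathlib.GroupTheory.Finiteness

/-! Project FB5 (MP_f44088_al), module Max: a maximal normal subgroup below a finitely generated one. -/

set_option autoImplicit false

namespace Pool.Agent.Lib.MP_f44088_fd

namespace MaxAux

/-- a finite subset of the union of a nonempty chain is contained in a member -/
theorem fin_mem {G : Type} [Group G] (c : Set (Subgroup G)) (hc : IsChain (· ≤ ·) c) (hne : c.Nonempty)
    (S : Finset G) (h : ∀ x ∈ S, ∃ Y ∈ c, x ∈ Y) : ∃ Y ∈ c, ∀ x ∈ S, x ∈ Y := by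
  classical
  induction S using Finset.induction_on with
  | empty =>
    obtain ⟨Y, hY⟩ := hne
    exact ⟨Y, hY, fun x hx => absurd hx (Finset.notMem_empty x)⟩
  | insert a S ha ih =>
    obtain ⟨Y, hY, hYS⟩ := ih fun x hx => h x (Finset.mem_insert_of_mem hx)
    obtain ⟨Z, hZ, haZ⟩ := h a (Finset.mem_insert_self a S)
    rcases hc.total hY hZ with hle | hle
    · refine ⟨Z, hZ, fun x hx => ?_⟩
      rcases Finset.mem_insert.1 hx with h1 | h1
      · rw [h1]
        exact haZ
      · exact hle (hYS x h1)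
    · refine ⟨Y, hY, fun x hx => ?_⟩
      rcases Finset.mem_insert.1 hx with h1 | h1
      · rw [h1]
        exact hle haZ
      · exact hYS x h1

end MaxAux

open MaxAux in
theorem Max : S_Max := by
  intro G _ E hE hfg hne
  have hz : ∃ m, ⊥ ≤ m ∧ Maximal (· ∈ {Y : Subgroup G | Y.Normal ∧ Y ≤ E ∧ Y ≠ E}) m := by
    apply zorn_le_nonempty₀
    · intro c hcs hc y hy
      have hdir : DirectedOn (· ≤ ·) c := hc.directedOn
      have hmem : ∀ x : G, x ∈ sSup c ↔ ∃ Y ∈ c, x ∈ Y := fun x =>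
        Subgroup.mem_sSup_of_directedOn ⟨y, hy⟩ hdir
      refine ⟨sSup c, ⟨?_, ?_, ?_⟩, fun z hz => le_sSup hz⟩
      · constructor
        intro n hn g
        obtain ⟨Y, hY, hnY⟩ := (hmem n).1 hn
        exact (hmem _).2 ⟨Y, hY, (hcs hY).1.conj_mem n hnY g⟩
      · exact sSup_le fun Y hY => (hcs hY).2.1
      · intro heq
        obtain ⟨S, hS⟩ := hfg
        have hS' : ∀ x ∈ S, ∃ Y ∈ c, x ∈ Y := by
          intro x hx
          have hxE : x ∈ E := by
            rw [← hS]
            exact Subgroup.subset_closure hx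
          rw [← heq] at hxE
          exact (hmem x).1 hxE
        obtain ⟨Y, hY, hYS⟩ := fin_mem c hc ⟨y, hy⟩ S hS'
        have hle : E ≤ Y := by
          rw [← hS]
          exact (Subgroup.closure_le Y).2 fun x hx => hYS x hx
        exact (hcs hY).2.2 (le_antisymm (hcs hY).2.1 hle)
    · exact ⟨inferInstance, bot_le, fun h => hne h.symm⟩
  obtain ⟨Y, _, hY⟩ := hz
  refine ⟨Y, hY.prop.1, lt_of_le_of_ne hY.prop.2.1 hY.prop.2.2, ?_⟩
  intro Z hZ hYZ hZE
  by_cases h : Z = E
  · exact Or.inr h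
  · exact Or.inl (le_antisymm (hY.le_of_ge ⟨hZ, hZE, h⟩ hYZ) hYZ)

end Pool.Agent.Lib.MP_f44088_fd
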