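import Pool.Agent.Lib.MP_f44088_al.FB5.Spec

/-! Project FB5 (MP_f44088_al), module Nil: finite nilpotent A-groups are abelian. -/

set_option autoImplicit false

namespace Pool.Agent.Lib.MP_f44088_fd

open Pool.Agent.Lib.MP_f44088_fc.DLAux (AG)

theorem Nil : S_Nil := by
  intro G _ _ hN hA x y
  obtain ⟨e⟩ := ((Group.isNilpotent_of_finite_tfae (G := G)).out 0 4).mp hN
  have key : ∀ f g : (∀ p : (Nat.card G).primeFactors, ∀ P : Sylow p G, (↑P : Subgroup G)),
      f * g = g * f := by
    intro f g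
    funext p P
    have hp : (p : ℕ).Prime := Nat.prime_of_mem_primeFactors p.2
    have h1 := hA p hp P.1 P.isPGroup' (f p P).1 (f p P).2 (g p P).1 (g p P).2
    exact Subtype.ext h1
  obtain ⟨f, rfl⟩ := e.surjective x
  obtain ⟨g, rfl⟩ := e.surjective y
  rw [← map_mul, ← map_mul, key]

end Pool.Agent.Lib.MP_f44088_fd
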