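import Pool.Agent.Lib.MP_f44088_al.FB5.Spec

/-! Project FB5 (MP_f44088_al), Non3: three primes, no normal subgroup of prime power order. -/

set_option autoImplicit false

open scoped commutatorElement

namespace Pool.Agent.Lib.MP_f44088_fd

open Pool.Agent.Lib.MP_f44088_fb (Sat InVar FGrp Cls Mono)
open Pool.Agent.Lib.MP_f44088_fc.DLAux (AG ag_sub)

namespace Non3Aux

/-- a subgroup of least order with a given property -/
theorem exists_min {G : Type} [Group G] (P : Subgroup G → Prop) (h : ∃ M, P M) :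
    ∃ M, P M ∧ ∀ N, P N → Nat.card M ≤ Nat.card N := by
  classical
  have hex : ∃ n : ℕ, ∃ M, P M ∧ Nat.card M = n := by
    obtain ⟨M, hM⟩ := h
    exact ⟨_, M, hM, rfl⟩
  obtain ⟨M, hM, hc⟩ := Nat.find_spec hex
  refine ⟨M, hM, fun N hN => ?_⟩
  rw [hc]
  exact Nat.find_min' hex ⟨N, hN, rfl⟩

theorem isPGroup_zpowers {G : Type} [Group G] {p : ℕ} {y : G} {j : ℕ} (h : y ^ (p ^ j) = 1) :
    IsPGroup p (Subgroup.zpowers y) := by
  rintro ⟨g, i, rfl⟩
  refine ⟨j, Subtype.ext ?_⟩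
  change (y ^ i) ^ (p ^ j) = 1
  rw [← zpow_natCast, ← zpow_mul, mul_comm, zpow_mul, zpow_natCast, h, one_zpow]

/-- no `p`-subgroup of `M` is normalized by `M` -/
theorem no_p {G : Type} [Group G] (hG : AG G) (p : ℕ) (hp : p.Prime)
    (hno : ∀ A : Subgroup G, A.Normal → IsPGroup p A → A = ⊥) (M : Subgroup G) (hM : M.Normal)
    (A : Subgroup G) (hAM : A ≤ M) (hA : ∀ m ∈ M, ∀ a ∈ A, m * a * m⁻¹ ∈ A) (hpA : IsPGroup p A) :
    A = ⊥ := by
  let B : Subgroup G :=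
    { carrier := {z | z ∈ M ∧ (∃ j : ℕ, z ^ (p ^ j) = 1) ∧
        ∀ y ∈ M, (∃ j : ℕ, y ^ (p ^ j) = 1) → z * y = y * z}
      one_mem' := ⟨one_mem _, ⟨0, one_pow _⟩, fun y _ _ => by rw [one_mul, mul_one]⟩
      mul_mem' := by
        rintro a b ⟨haM, ⟨i, hi⟩, ha⟩ ⟨hbM, ⟨j, hj⟩, hb⟩
        refine ⟨mul_mem haM hbM, ⟨i + j, ?_⟩, ?_⟩
        · have hc : Commute a b := ha b hbM ⟨j, hj⟩
          rw [hc.mul_pow, pow_add, pow_mul, hi, one_pow, one_mul, mul_comm (p ^ i), pow_mul, hj,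
            one_pow]
        · intro y hy hyj
          rw [mul_assoc, hb y hy hyj, ← mul_assoc, ha y hy hyj, mul_assoc]
      inv_mem' := by
        rintro a ⟨haM, ⟨i, hi⟩, ha⟩
        refine ⟨inv_mem haM, ⟨i, by rw [inv_pow, hi, inv_one]⟩, ?_⟩
        intro y hy hyj
        exact (show Commute a y from ha y hy hyj).inv_left.eq }
  have hBn : B.Normal := by
    refine ⟨?_⟩
    rintro z ⟨hzM, ⟨i, hi⟩, hz⟩ g
    refine ⟨hM.conj_mem z hzM g, ⟨i, ?_⟩, ?_⟩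
    · rw [conj_pow, hi, mul_one, mul_inv_cancel]
    · rintro y hy ⟨j, hj⟩
      have h1 := hz (g⁻¹ * y * g⁻¹⁻¹) (hM.conj_mem y hy g⁻¹)
        ⟨j, by rw [conj_pow, hj, mul_one, mul_inv_cancel]⟩
      calc g * z * g⁻¹ * y = g * (z * (g⁻¹ * y * g⁻¹⁻¹)) * g⁻¹ := by group
        _ = g * (g⁻¹ * y * g⁻¹⁻¹ * z) * g⁻¹ := by rw [h1]
        _ = y * (g * z * g⁻¹) := by group
  have hBp : IsPGroup p B := by
    rintro ⟨z, hzM, ⟨i, hi⟩, hz⟩
    exact ⟨i, Subtype.ext hi⟩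
  have hAB : A ≤ B := by
    intro a ha
    obtain ⟨i, hi⟩ := hpA ⟨a, ha⟩
    refine ⟨hAM ha, ⟨i, congrArg Subtype.val hi⟩, ?_⟩
    rintro y hy ⟨j, hj⟩
    have hyA : Subgroup.zpowers y ≤ Subgroup.normalizer (A : Set G) := by
      rw [Subgroup.zpowers_le, Subgroup.mem_normalizer_iff]
      intro h
      refine ⟨hA y hy h, fun h1 => ?_⟩
      have h2 := hA y⁻¹ (inv_mem hy) _ h1
      have h3 : y⁻¹ * (y * h * y⁻¹) * y⁻¹⁻¹ = h := by group
      rwa [h3] at h2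
    have h1 := (isPGroup_zpowers hj).to_sup_of_normal_right' hpA hyA
    exact hG p hp _ h1 a (Subgroup.mem_sup_right ha) y
      (Subgroup.mem_sup_left (Subgroup.mem_zpowers y))
  rw [hno B hBn hBp] at hAB
  exact eq_bot_iff.2 hAB

/-- a normal subgroup with a nontrivial `r`-element meets every Sylow `r`-subgroup -/
theorem sylow_meet {H : Type} [Group H] [Finite H] {r : ℕ} [Fact r.Prime] (P0 : Sylow r H)
    (N : Subgroup H) (hN : N.Normal) (s : H) (hs : s ∈ N) (hs1 : s ≠ 1) (j : ℕ)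
    (hj : s ^ (r ^ j) = 1) : ∃ t ∈ N, t ≠ 1 ∧ t ∈ P0 := by
  obtain ⟨Q, hQ⟩ := (isPGroup_zpowers hj).exists_le_sylow
  obtain ⟨h, hh⟩ := MulAction.exists_smul_eq H Q P0
  refine ⟨h * s * h⁻¹, hN.conj_mem s hs h, ?_, ?_⟩
  · intro h1
    exact hs1 (conj_eq_one_iff.1 h1)
  · rw [← hh]
    exact Subgroup.smul_mem_pointwise_smul s (MulAut.conj h) (Q : Subgroup H)
      (hQ (Subgroup.mem_zpowers s))

/-- the same for a subgroup `S` of `M` normalized by `M`, `M` normal in `G`, and the Sylow subgroups of `G` -/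
theorem meet {G : Type} [Group G] [Finite G] {r : ℕ} [Fact r.Prime] (R : Sylow r G)
    (M S : Subgroup G) (hM : M.Normal) (hSM : S ≤ M) (hS : ∀ m ∈ M, ∀ s ∈ S, m * s * m⁻¹ ∈ S)
    (hr : r ∣ Nat.card S) : ∃ s ∈ S, s ≠ 1 ∧ s ∈ R := by
  obtain ⟨s0, ho⟩ := exists_prime_orderOf_dvd_card' r hr
  have hs0 : (s0 : G) ^ (r ^ 1) = 1 := by
    rw [pow_one]
    have h1 : s0 ^ r = 1 := by
      rw [← ho]
      exact pow_orderOf_eq_one s0
    exact congrArg Subtype.val h1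
  have hs1 : (s0 : G) ≠ 1 := by
    intro h
    have h1 : s0 = 1 := Subtype.ext h
    rw [h1, orderOf_one] at ho
    exact (Fact.out : r.Prime).one_lt.ne ho
  let P0 : Sylow r M := default
  have h1 : IsPGroup r ((P0 : Subgroup M).map M.subtype) := P0.isPGroup'.map _
  obtain ⟨Q, hQ⟩ := h1.exists_le_sylow
  obtain ⟨x, hx⟩ := MulAction.exists_smul_eq G Q R
  let N : Subgroup M := S.comap ((MulAut.conj x).toMonoidHom.comp M.subtype)
  have hmem : ∀ t : M, t ∈ N ↔ x * (t : G) * x⁻¹ ∈ S := fun t => Iff.rfl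
  have hN : N.Normal := by
    refine ⟨fun t ht m => ?_⟩
    rw [hmem] at ht ⊢
    have h2 := hS (x * (m : G) * x⁻¹) (hM.conj_mem m m.2 x) _ ht
    have h3 : x * (m : G) * x⁻¹ * (x * (t : G) * x⁻¹) * (x * (m : G) * x⁻¹)⁻¹ =
        x * ((m * t * m⁻¹ : M) : G) * x⁻¹ := by
      push_cast
      group
    rwa [h3] at h2
  have hs0M : x⁻¹ * (s0 : G) * x⁻¹⁻¹ ∈ M := hM.conj_mem _ (hSM s0.2) x⁻¹
  obtain ⟨t, htN, ht1, htP⟩ := sylow_meet P0 N hN ⟨x⁻¹ * (s0 : G) * x⁻¹⁻¹, hs0M⟩ (by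
      rw [hmem]
      have h3 : x * (x⁻¹ * (s0 : G) * x⁻¹⁻¹) * x⁻¹ = s0 := by group
      change x * (x⁻¹ * (s0 : G) * x⁻¹⁻¹) * x⁻¹ ∈ S
      rw [h3]
      exact s0.2) (by
      intro h
      have h3 : x⁻¹ * (s0 : G) * x⁻¹⁻¹ = 1 := congrArg Subtype.val h
      exact hs1 (conj_eq_one_iff.1 h3)) 1 (by
      apply Subtype.ext
      change (x⁻¹ * (s0 : G) * x⁻¹⁻¹) ^ (r ^ 1) = 1
      rw [conj_pow, hs0, mul_one, mul_inv_cancel])
  refine ⟨x * (t : G) * x⁻¹, (hmem t).1 htN, ?_, ?_⟩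
  · intro h
    exact ht1 (Subtype.ext (conj_eq_one_iff.1 h))
  · rw [← hx]
    exact Subgroup.smul_mem_pointwise_smul (t : G) (MulAut.conj x) (Q : Subgroup G)
      (hQ ⟨t, htP, rfl⟩)

/-- (1): `S` is not abelian -/
theorem nonab {G : Type} [Group G] [Finite G] (hG : AG G)
    (hno : ∀ p : ℕ, p.Prime → ∀ A : Subgroup G, A.Normal → IsPGroup p A → A = ⊥)
    (M S : Subgroup G) (hM : M.Normal) (hS0 : S ≠ ⊥) (hSM : S ≤ M)
    (hS : ∀ m ∈ M, ∀ s ∈ S, m * s * m⁻¹ ∈ S) : ¬ ∀ x ∈ S, ∀ y ∈ S, x * y = y * x := by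
  intro hab
  obtain ⟨x, hx, hx1⟩ : ∃ x ∈ S, x ≠ 1 := S.bot_or_exists_ne_one.resolve_left hS0
  have ho : orderOf x ≠ 1 := fun h => hx1 (orderOf_eq_one_iff.1 h)
  obtain ⟨p, hp, hpd⟩ := Nat.exists_prime_and_dvd ho
  have hpos : 0 < orderOf x := orderOf_pos x
  have hy : orderOf (x ^ (orderOf x / p)) = p := by
    rw [orderOf_pow_of_dvd (Nat.div_pos (Nat.le_of_dvd hpos hpd) hp.pos).ne'
      (Nat.div_dvd_of_dvd hpd), Nat.div_div_self hpd hpos.ne']
  let A : Subgroup G :=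
    { carrier := {z | z ∈ S ∧ ∃ j : ℕ, z ^ (p ^ j) = 1}
      one_mem' := ⟨one_mem _, 0, one_pow _⟩
      mul_mem' := by
        rintro a b ⟨ha, i, hi⟩ ⟨hb, j, hj⟩
        refine ⟨mul_mem ha hb, i + j, ?_⟩
        have hc : Commute a b := hab a ha b hb
        rw [hc.mul_pow, pow_add, pow_mul, hi, one_pow, one_mul, mul_comm (p ^ i), pow_mul, hj,
          one_pow]
      inv_mem' := by
        rintro a ⟨ha, i, hi⟩
        exact ⟨inv_mem ha, i, by rw [inv_pow, hi, inv_one]⟩ }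
  have hA : A = ⊥ := by
    refine no_p hG p hp (hno p hp) M hM A (fun a ha => hSM ha.1) ?_ ?_
    · rintro m hm a ⟨ha, i, hi⟩
      refine ⟨hS m hm a ha, i, ?_⟩
      rw [conj_pow, hi, mul_one, mul_inv_cancel]
    · rintro ⟨a, ha, i, hi⟩
      exact ⟨i, Subtype.ext hi⟩
  have h1 : x ^ (orderOf x / p) ∈ A := by
    refine ⟨pow_mem hx _, 1, ?_⟩
    rw [pow_one]
    nth_rewrite 2 [← hy]
    exact pow_orderOf_eq_one _
  rw [hA, Subgroup.mem_bot] at h1
  rw [h1, orderOf_one] at hy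
  exact hp.one_lt.ne hy

/-- (2): a nonabelian `S` without proper characteristic subgroups is perfect, so it has three primes -/
theorem primes3 {G : Type} [Group G] [Finite G] (hG : AG G) (hT : S_TwoPr) (M S : Subgroup G)
    (hS0 : S ≠ ⊥) (hSM : S ≤ M) (hS : ∀ m ∈ M, ∀ s ∈ S, m * s * m⁻¹ ∈ S)
    (hmin : ∀ T : Subgroup G, T ≠ ⊥ → T ≤ M → (∀ m ∈ M, ∀ s ∈ T, m * s * m⁻¹ ∈ T) →
      Nat.card S ≤ Nat.card T) (hab : ¬ ∀ x ∈ S, ∀ y ∈ S, x * y = y * x) :
    2 < (Nat.card S).primeFactors.card := by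
  by_contra hle
  have hD2 : derivedSeries S 2 = ⊥ := hT S (ag_sub hG S) (not_lt.1 hle)
  have hDS : ⁅S, S⁆ ≤ S := Subgroup.commutator_le.2 fun a ha b hb => by
    rw [commutatorElement_def]
    exact mul_mem (mul_mem (mul_mem ha hb) (inv_mem ha)) (inv_mem hb)
  have hD0 : ⁅S, S⁆ ≠ ⊥ := by
    intro h
    apply hab
    intro x hx y hy
    have h1 : ⁅x, y⁆ ∈ ⁅S, S⁆ := Subgroup.commutator_mem_commutator hx hy
    rw [h, Subgroup.mem_bot] at h1
    exact commutatorElement_eq_one_iff_mul_comm.1 h1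
  have hDn : ∀ m ∈ M, ∀ s ∈ ⁅S, S⁆, m * s * m⁻¹ ∈ ⁅S, S⁆ := by
    intro m hm s hs
    have h1 : m * s * m⁻¹ ∈ (⁅S, S⁆).map (MulAut.conj m).toMonoidHom := ⟨s, hs, rfl⟩
    rw [Subgroup.map_commutator] at h1
    have h2 : S.map (MulAut.conj m).toMonoidHom ≤ S := by
      rintro _ ⟨a, ha, rfl⟩
      exact hS m hm a ha
    exact Subgroup.commutator_mono h2 h2 h1
  have hDe : ⁅S, S⁆ = S := Subgroup.eq_of_le_of_card_ge hDS (hmin _ hD0 (hDS.trans hSM) hDn)
  have htop : (⊤ : Subgroup S).map S.subtype = S := by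
    rw [← MonoidHom.range_eq_map, Subgroup.range_subtype]
  have hc : ⁅(⊤ : Subgroup S), (⊤ : Subgroup S)⁆ = ⊤ := by
    apply Subgroup.map_injective S.subtype_injective
    rw [Subgroup.map_commutator, htop, hDe]
  have h2 : derivedSeries S 2 = ⊤ := by
    rw [derivedSeries_succ, derivedSeries_succ, derivedSeries_zero, hc, hc]
  rw [hD2] at h2
  apply hS0
  rw [← htop, ← h2, Subgroup.map_bot]

/-- (3): `S` is normal -/
theorem S_normal {G : Type} [Group G] [Finite G] (hG : AG G) (M S : Subgroup G) (hM : M.Normal)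
    (hSM : S ≤ M) (hS : ∀ m ∈ M, ∀ s ∈ S, m * s * m⁻¹ ∈ S)
    (hmin : ∀ T : Subgroup G, T ≠ ⊥ → T ≤ M → (∀ m ∈ M, ∀ s ∈ T, m * s * m⁻¹ ∈ T) →
      Nat.card S ≤ Nat.card T)
    (hpr : ∀ r : ℕ, r.Prime → r ∣ Nat.card G → r ∣ Nat.card S) : S.Normal := by
  have key : Subgroup.normalizer (S : Set G) = ⊤ := by
    rw [← Subgroup.index_eq_one]
    by_contra h1
    obtain ⟨r, hr, hrd⟩ := Nat.exists_prime_and_dvd h1
    have : Fact r.Prime := ⟨hr⟩
    have hrG : r ∣ Nat.card G := hrd.trans (Subgroup.index_dvd_card _)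
    let R : Sylow r G := default
    obtain ⟨s, hsS, hs1, hsR⟩ := meet R M S hM hSM hS (hpr r hr hrG)
    have hcl : ∀ g ∈ R, ∀ y ∈ S, g * y * g⁻¹ ∈ S := by
      intro g hg
      let T : Subgroup G := S ⊓ S.comap (MulAut.conj g).toMonoidHom
      have hmem : ∀ y, y ∈ T ↔ y ∈ S ∧ g * y * g⁻¹ ∈ S := fun y => Iff.rfl
      have hcomm : g * s = s * g := hG r hr R R.isPGroup' g hg s hsR
      have hT0 : T ≠ ⊥ := by
        intro h
        apply hs1
        have h2 : s ∈ T := by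
          rw [hmem]
          refine ⟨hsS, ?_⟩
          rw [hcomm, mul_inv_cancel_right]
          exact hsS
        rw [h, Subgroup.mem_bot] at h2
        exact h2
      have hTn : ∀ m ∈ M, ∀ y ∈ T, m * y * m⁻¹ ∈ T := by
        intro m hm y hy
        rw [hmem] at hy ⊢
        refine ⟨hS m hm y hy.1, ?_⟩
        have h2 := hS (g * m * g⁻¹) (hM.conj_mem m hm g) _ hy.2
        have h3 : g * m * g⁻¹ * (g * y * g⁻¹) * (g * m * g⁻¹)⁻¹ = g * (m * y * m⁻¹) * g⁻¹ := by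
          group
        rwa [h3] at h2
      have hTS : T = S := Subgroup.eq_of_le_of_card_ge inf_le_left
        (hmin T hT0 (inf_le_left.trans hSM) hTn)
      intro y hy
      rw [← hTS] at hy
      exact ((hmem y).1 hy).2
    have hRK : (R : Subgroup G) ≤ Subgroup.normalizer (S : Set G) := by
      intro g hg
      rw [Subgroup.mem_normalizer_iff]
      intro h
      refine ⟨hcl g hg h, fun h2 => ?_⟩
      have h3 := hcl g⁻¹ (inv_mem hg) _ h2
      have h4 : g⁻¹ * (g * h * g⁻¹) * g⁻¹⁻¹ = h := by group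
      rwa [h4] at h3
    exact R.not_dvd_index (hrd.trans (Subgroup.index_dvd_of_le hRK))
  refine ⟨fun s hs g => ?_⟩
  have h1 : g ∈ Subgroup.normalizer (S : Set G) := by
    rw [key]
    exact Subgroup.mem_top g
  exact (Subgroup.mem_normalizer_iff.1 h1 s).1 hs

end Non3Aux

open Non3Aux

theorem Non3 : S_Ab3 → S_TwoPr → S_Non3 := by
  intro hAb3 hTwo G _ _ hmono hG hcard
  by_cases hno : ∀ p : ℕ, p.Prime → ∀ A : Subgroup G, A.Normal → IsPGroup p A → A = ⊥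
  swap
  · left
    push Not at hno
    obtain ⟨p, hp, A, hA, hpA, hA0⟩ := hno
    exact hAb3 G hmono hG hcard p hp A hA hA0 hpA
  right
  have hnt : Nontrivial G := hmono.1
  obtain ⟨M, ⟨hM, hM0⟩, hMmin⟩ := exists_min (fun M : Subgroup G => M.Normal ∧ M ≠ ⊥)
    ⟨⊤, inferInstance, top_ne_bot⟩
  obtain ⟨S, ⟨hS0, hSM, hS⟩, hSmin⟩ := exists_min
    (fun S : Subgroup G => S ≠ ⊥ ∧ S ≤ M ∧ ∀ m ∈ M, ∀ s ∈ S, m * s * m⁻¹ ∈ S)
    ⟨M, hM0, le_rfl, fun m _ s hs => hM.conj_mem s hs m⟩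
  have hmin : ∀ T : Subgroup G, T ≠ ⊥ → T ≤ M → (∀ m ∈ M, ∀ s ∈ T, m * s * m⁻¹ ∈ T) →
      Nat.card S ≤ Nat.card T := fun T h1 h2 h3 => hSmin T ⟨h1, h2, h3⟩
  have hab := nonab hG hno M S hM hS0 hSM hS
  have h3 := primes3 hG hTwo M S hS0 hSM hS hmin hab
  have hsub : (Nat.card S).primeFactors ⊆ (Nat.card G).primeFactors :=
    Nat.primeFactors_mono S.card_subgroup_dvd_card Nat.card_pos.ne'
  have heq : (Nat.card S).primeFactors = (Nat.card G).primeFactors :=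
    Finset.eq_of_subset_of_card_le hsub (by omega)
  have hpr : ∀ r : ℕ, r.Prime → r ∣ Nat.card G → r ∣ Nat.card S := by
    intro r hr hrd
    have h4 : r ∈ (Nat.card G).primeFactors := Nat.mem_primeFactors.2 ⟨hr, hrd, Nat.card_pos.ne'⟩
    rw [← heq] at h4
    exact Nat.dvd_of_mem_primeFactors h4
  have hSn := S_normal hG M S hM hSM hS hmin hpr
  have hSM2 : S = M := Subgroup.eq_of_le_of_card_ge hSM (hMmin S ⟨hSn, hS0⟩)
  subst hSM2
  refine ⟨S, hM, ?_, ?_⟩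
  · have : Nontrivial S := (Subgroup.nontrivial_iff_ne_bot S).2 hM0
    refine ⟨fun H hH => ?_⟩
    by_cases hH0 : H = ⊥
    · exact Or.inl hH0
    right
    have h4 : H.map S.subtype ≠ ⊥ := by
      intro h
      exact hH0 ((Subgroup.map_eq_bot_iff_of_injective H S.subtype_injective).1 h)
    have h5 : H.map S.subtype ≤ S := by
      rintro _ ⟨a, _, rfl⟩
      exact a.2
    have h6 : ∀ m ∈ S, ∀ s ∈ H.map S.subtype, m * s * m⁻¹ ∈ H.map S.subtype := by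
      rintro m hm _ ⟨a, ha, rfl⟩
      exact ⟨⟨m, hm⟩ * a * ⟨m, hm⟩⁻¹, hH.conj_mem a ha ⟨m, hm⟩, rfl⟩
    have h7 : H.map S.subtype = S := Subgroup.eq_of_le_of_card_ge h5 (hmin _ h4 h5 h6)
    apply Subgroup.map_injective S.subtype_injective
    rw [h7, ← MonoidHom.range_eq_map, Subgroup.range_subtype]
  · let C : Subgroup G :=
      { carrier := {g | ∀ a ∈ S, g * a = a * g}
        one_mem' := fun a _ => by rw [one_mul, mul_one]
        mul_mem' := by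
          intro g h hg hh a ha
          rw [mul_assoc, hh a ha, ← mul_assoc, hg a ha, mul_assoc]
        inv_mem' := by
          intro g hg a ha
          exact (show Commute g a from hg a ha).inv_left.eq }
    have hC : C.Normal := by
      refine ⟨fun z hz g a ha => ?_⟩
      have h4 := hz (g⁻¹ * a * g⁻¹⁻¹) (hM.conj_mem a ha g⁻¹)
      calc g * z * g⁻¹ * a = g * (z * (g⁻¹ * a * g⁻¹⁻¹)) * g⁻¹ := by group
        _ = g * (g⁻¹ * a * g⁻¹⁻¹ * z) * g⁻¹ := by rw [h4]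
        _ = a * (g * z * g⁻¹) := by group
    have hCS : C ⊓ S = ⊥ := by
      by_contra h4
      have h5 : (C ⊓ S).Normal := ⟨fun z hz g => ⟨hC.conj_mem z hz.1 g, hM.conj_mem z hz.2 g⟩⟩
      have h6 : C ⊓ S = S := Subgroup.eq_of_le_of_card_ge inf_le_right (hMmin _ ⟨h5, h4⟩)
      apply hab
      intro x hx y hy
      rw [← h6] at hx
      exact hx.1 y hy
    have hC0 : C = ⊥ := (hmono.2 C S hC hM hCS).resolve_right hM0
    rw [← Nat.card_perm]
    apply Nat.card_le_card_of_injective (fun g : G => (MulAut.conjNormal (H := S) g).toEquiv)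
    intro g h hgh
    have h4 : g⁻¹ * h ∈ C := by
      intro a ha
      have h5 : (MulAut.conjNormal (H := S) g).toEquiv ⟨a, ha⟩ =
          (MulAut.conjNormal (H := S) h).toEquiv ⟨a, ha⟩ := by
        exact congrArg (fun e : Equiv.Perm S => e ⟨a, ha⟩) hgh
      have h6 : g * a * g⁻¹ = h * a * h⁻¹ := congrArg Subtype.val h5
      calc g⁻¹ * h * a = g⁻¹ * (h * a * h⁻¹) * h := by group
        _ = g⁻¹ * (g * a * g⁻¹) * h := by rw [h6]
        _ = a * (g⁻¹ * h) := by group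
    rw [hC0, Subgroup.mem_bot] at h4
    exact (inv_mul_eq_one.1 h4)

end Pool.Agent.Lib.MP_f44088_fd
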