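import Pool.Agent.Lib.MP_f44088_al.FB5.Spec

/-! Project FB5 (MP_f44088_al): the case of three primes. -/

set_option autoImplicit false

namespace Pool.Agent.Lib.MP_f44088_fd

open Pool.Agent.Lib.MP_f44088_fb (Sat InVar FGrp Cls Mono)
open Pool.Agent.Lib.MP_f44088_fc.DLAux (AG)

namespace RedAux

/-- abelian Sylow subgroups: all `p`-subgroups are abelian -/
theorem ag_of_sylow {G : Type} [Group G] [Finite G]
    (h : ∀ p : ℕ, p.Prime → ∀ P : Sylow p G, ∀ x ∈ P, ∀ y ∈ P, x * y = y * x) : AG G := by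
  intro p hp P hP x hx y hy
  obtain ⟨Q, hQ⟩ := hP.exists_le_sylow
  exact h p hp Q x (hQ hx) y (hQ hy)

end RedAux

open RedAux

/-- **Red.** The case of three primes. -/
theorem Red : S_Non3 → S_Red := by
  intro hNon W S N hS hAb hPr hSim G _ _ hW hM
  have hAG : AG G := ag_of_sylow (hAb G hW)
  have hcard : (Nat.card G).primeFactors.card ≤ 3 := (Finset.card_le_card (hPr G hW)).trans hS
  rcases hNon G hM hAG hcard with h | ⟨M, _, hMs, hMc⟩
  · exact Or.inl h
  · right
    have hWM : Sat W M := Pool.Agent.Lib.MP_f44088_fb.SeqAux.sat_inVar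
      (Pool.Agent.Lib.MP_f44088_fb.inVar_of_injective M.subtype M.subtype_injective) hW
    have hMN : Nat.card M ≤ N := hSim M hWM hMs
    exact hMc.trans (Nat.factorial_le hMN)

end Pool.Agent.Lib.MP_f44088_fd
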