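import Pool.Agent.Lib.MP_f44088_al.FB5.Spec

/-! Project FB5 (MP_f44088_al): minimal counterexamples. -/

set_option autoImplicit false

namespace Pool.Agent.Lib.MP_f44088_fd

open Pool.Agent.Lib.MP_f44088_fb (Sat InVar FGrp Cls Mono inVar_of_injective inVar_of_surjective)
open Pool.Agent.Lib.MP_f44088_fc.DLAux (AG)
open Pool.Agent.Lib.MP_f44088_fb.SeqAux (sat_inVar sat_union sat_mono map_lift letters min_ce mono_min)

namespace SeqAux

/-- a finite counterexample -/
theorem finite_ce {W B : Set (FreeGroup ℕ)}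
    (hB : ∀ (G : Type) [Group G], Group.FG G → Sat B G → Finite G)
    (G : Type) [Group G] (h1 : Sat B G) (h2 : ¬ Sat W G) :
    ∃ H : FGrp, Sat B H.C ∧ ¬ Sat W H.C := by
  have h3 : ∃ w ∈ W, ∃ f : ℕ → G, FreeGroup.lift f w ≠ 1 := by
    by_contra hcon
    apply h2
    intro w hw f
    by_contra hne
    exact hcon ⟨w, hw, f, hne⟩
  obtain ⟨w, hw, f, hf⟩ := h3
  obtain ⟨K, hK⟩ := letters w
  let s : Set G := f '' Set.Iio K
  have hs : s.Finite := (Set.finite_Iio K).image f
  let H : Subgroup G := Subgroup.closure s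
  have hfg : Group.FG H := by
    rw [Group.fg_iff_subgroup_fg]
    exact ⟨hs.toFinset, by rw [hs.coe_toFinset]⟩
  have hSat : Sat B H := sat_inVar (inVar_of_injective H.subtype H.subtype_injective) h1
  have hfin : Finite H := hB H hfg hSat
  have hnot : ¬ Sat W H := by
    intro hWH
    classical
    let g : ℕ → H := fun i => if h : i < K then ⟨f i, Subgroup.subset_closure ⟨i, h, rfl⟩⟩ else 1
    have h4 := hWH w hw g
    have h5 : FreeGroup.lift f w = FreeGroup.lift (fun i => H.subtype (g i)) w := by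
      refine hK G f _ fun i hi => ?_
      have h6 : g i = ⟨f i, Subgroup.subset_closure ⟨i, hi, rfl⟩⟩ := dif_pos hi
      rw [h6]
      rfl
    rw [h5, ← map_lift, h4, map_one] at hf
    exact hf rfl
  exact ⟨⟨H, inferInstance, hfin⟩, hSat, hnot⟩

/-- a two generator subgroup of a locally finite variety is finite -/
theorem fin_two {G : Type} [Group G] (x y : G)
    (h : ∀ s : Finset (Subgroup.closure ({x, y} : Set G)),
      Finite (Subgroup.closure (s : Set (Subgroup.closure ({x, y} : Set G))))) :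
    Finite (Subgroup.closure ({x, y} : Set G)) := by
  have h1 : ((fun z : Subgroup.closure ({x, y} : Set G) => (z : G)) ⁻¹' ({x, y} : Set G)).Finite :=
    Set.Finite.preimage (fun a _ b _ hab => Subtype.ext hab) (Set.toFinite _)
  have h2 := h h1.toFinset
  rw [h1.coe_toFinset] at h2
  have h3 : Subgroup.closure
      ((fun z : Subgroup.closure ({x, y} : Set G) => (z : G)) ⁻¹' ({x, y} : Set G)) = ⊤ :=
    Subgroup.closure_closure_coe_preimage
  rw [h3] at h2
  exact Finite.of_equiv _ Subgroup.topEquiv.toEquiv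

/-- from the Sylow subgroups to all `p`-subgroups -/
theorem ag_syl {G : Type} [Group G]
    (h : ∀ p : ℕ, p.Prime → ∀ P : Sylow p G, ∀ x ∈ P, ∀ y ∈ P, x * y = y * x) : AG G := by
  intro p hp P hP x hx y hy
  obtain ⟨Q, hQ⟩ := hP.exists_le_sylow
  exact h p hp Q x (hQ hx) y (hQ hy)

/-- elements of a `p`-subgroup commute -/
theorem ag_of {G : Type} [Group G] (h : ∀ x y : G, AG (Subgroup.closure ({x, y} : Set G))) :
    AG G := by
  intro p hp P hP x hx y hy
  let C : Subgroup G := Subgroup.closure ({x, y} : Set G)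
  have hCP : C ≤ P := by
    rw [Subgroup.closure_le]
    rintro z (rfl | hz)
    · exact hx
    · rw [Set.mem_singleton_iff.1 hz]
      exact hy
  have hC : IsPGroup p C := hP.to_le hCP
  have hT : IsPGroup p (⊤ : Subgroup C) := hC.to_subgroup ⊤
  have hxC : x ∈ C := Subgroup.subset_closure (Set.mem_insert _ _)
  have hyC : y ∈ C := Subgroup.subset_closure (Set.mem_insert_of_mem _ rfl)
  have h1 := h x y p hp ⊤ hT ⟨x, hxC⟩ (Subgroup.mem_top _) ⟨y, hyC⟩ (Subgroup.mem_top _)
  exact congrArg Subtype.val h1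

end SeqAux

open SeqAux

/-- **Seq.** Minimal counterexamples. -/
theorem Seq : S_Law → S_Two → S_Wv → S_LF → S_Bd → S_Seq := by
  classical
  intro hLaw hTwo hWv hLF hBd n N₀ W hn hyp hmo hno
  obtain ⟨v, hv⟩ := hLaw N₀
  obtain ⟨B2, hB2, hB2'⟩ := hTwo W fun G _ hG => (hyp G hG).1
  have hK := hWv W N₀ (fun G _ hG => (hyp G hG).1) hmo
  obtain ⟨N', hN'⟩ := hBd n N₀ hn
  -- the laws of the class
  let B0 : Set (FreeGroup ℕ) := ↑B2 ∪ {v, FreeGroup.of 0 ^ n}
  have hexp : ∀ (G : Type) [Group G], Sat B0 G → ∀ x : G, x ^ n = 1 := by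
    intro G _ h x
    have h1 := h (FreeGroup.of 0 ^ n) (Or.inr (Or.inr rfl)) (fun _ => x)
    rw [map_pow, FreeGroup.lift_apply_of] at h1
    exact h1
  have hKL : ∀ (G : Type) [Group G], Sat B0 G → KLaw N₀ G := by
    intro G _ h
    exact (hv G).1 (h v (Or.inr (Or.inl rfl)))
  have htwo : ∀ (G : Type) [Group G], Sat B0 G → ∀ x y : G,
      Finite (Subgroup.closure ({x, y} : Set G)) ∧ AG (Subgroup.closure ({x, y} : Set G)) := by
    intro G _ h x y
    have h1 := hyp _ (hB2' G (sat_mono (fun w hw => Or.inl hw) h) x y)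
    exact ⟨fin_two x y h1.1, ag_syl h1.2.1⟩
  have hfinB : ∀ (G : Type) [Group G], Group.FG G → Sat B0 G → Finite G := by
    intro G _ hfg h
    exact hLF n N₀ hn G hfg (hexp G h) (htwo G h) (hKL G h)
  have hWB0 : ∀ (G : Type) [Group G], Sat W G → Sat B0 G := by
    intro G _ h
    refine sat_union (hB2 G h) ?_
    rintro w (rfl | hw)
    · exact (hv G).2 (hK G h)
    · intro f
      rw [Set.mem_singleton_iff.1 hw, map_pow]
      exact (hyp G h).2.2 _
  -- enumeration
  have hcount : Countable (FreeGroup ℕ) := by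
    have h1 : Function.Surjective (FreeGroup.mk : List (ℕ × Bool) → FreeGroup ℕ) := by
      intro w
      obtain ⟨l, rfl⟩ := Quot.exists_rep w
      exact ⟨l, rfl⟩
    exact h1.countable
  obtain ⟨e, he⟩ := exists_surjective_nat (FreeGroup ℕ)
  let B : ℕ → Finset (FreeGroup ℕ) := fun N =>
    (B2 ∪ {v, FreeGroup.of 0 ^ n}) ∪ ((Finset.range N).filter fun i => e i ∈ W).image e
  have hBsub : ∀ N, B0 ⊆ (B N : Set (FreeGroup ℕ)) := by
    intro N w hw
    have h1 : w ∈ B2 ∪ {v, FreeGroup.of 0 ^ n} := by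
      rcases hw with hw | hw | hw
      · exact Finset.mem_union_left _ hw
      · exact Finset.mem_union_right _ (by rw [hw]; exact Finset.mem_insert_self _ _)
      · refine Finset.mem_union_right _ (Finset.mem_insert_of_mem ?_)
        exact Finset.mem_singleton.2 hw
    exact Finset.mem_coe.2 (Finset.mem_union_left _ h1)
  have hWB : ∀ N, ∀ (G : Type) [Group G], Sat W G → Sat (B N : Set (FreeGroup ℕ)) G := by
    intro N G _ h w hw
    rcases Finset.mem_union.1 (Finset.mem_coe.1 hw) with hw | hw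
    · refine hWB0 G h w ?_
      rcases Finset.mem_union.1 hw with hw | hw
      · exact Or.inl hw
      · rcases Finset.mem_insert.1 hw with hw | hw
        · exact Or.inr (Or.inl hw)
        · exact Or.inr (Or.inr (Finset.mem_singleton.1 hw))
    · obtain ⟨i, hi, rfl⟩ := Finset.mem_image.1 hw
      exact h _ (Finset.mem_filter.1 hi).2
  -- minimal counterexamples
  have hmin : ∀ N, ∃ H : FGrp, Sat (B N : Set (FreeGroup ℕ)) H.C ∧ ¬ Sat W H.C ∧
      ∀ H' : FGrp, Sat (B N : Set (FreeGroup ℕ)) H'.C → Nat.card H'.C < Nat.card H.C →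
        Sat W H'.C := by
    intro N
    apply min_ce
    by_contra hcon
    apply hno (B N)
    intro G _
    refine ⟨hWB N G, fun hG => ?_⟩
    by_contra hW
    exact hcon (finite_ce (fun G' _ hfg hG' => hfinB G' hfg (sat_mono (hBsub N) hG')) G hG hW)
  choose H hH1 hH2 hH3 using hmin
  have hs : ∀ N, ∃ s : ℕ, e s ∈ W ∧ ¬ ∀ f : ℕ → (H N).C, FreeGroup.lift f (e s) = 1 := by
    intro N
    by_contra hcon
    apply hH2 N
    intro w hw f
    by_contra hne
    obtain ⟨s, rfl⟩ := he w
    exact hcon ⟨s, hw, fun h => hne (h f)⟩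
  choose s hs1 hs2 using hs
  -- the indices
  let t : ℕ → ℕ := fun i => Nat.rec 0 (fun _ m => max m (s m) + 1) i
  have ht : ∀ i, t (i + 1) = max (t i) (s (t i)) + 1 := fun i => rfl
  have hmono : Monotone t := by
    refine monotone_nat_of_le_succ fun i => ?_
    rw [ht]
    exact (le_max_left _ _).trans (Nat.le_succ _)
  refine ⟨N', fun i => H (t i), fun i => ?_, fun i => mono_min (H (t i)) (hH1 _) (hH2 _) (hH3 _),
    fun i j hij hcon => ?_⟩
  · have h0 : Sat B0 (H (t i)).C := sat_mono (hBsub _) (hH1 _)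
    have hag : AG (H (t i)).C := ag_of fun x y => (htwo _ h0 x y).2
    rcases hN' (H (t i)).C (hexp _ h0) hag (mono_min (H (t i)) (hH1 _) (hH2 _) (hH3 _))
      (hKL _ h0) with h1 | h1
    · exact Or.inl ⟨hexp _ h0, h1, hag⟩
    · exact Or.inr h1
  · apply hs2 (t i)
    apply hcon
    apply hH1 (t j)
    have h1 : s (t i) < t j := by
      have h2 : t (i + 1) ≤ t j := hmono hij
      rw [ht] at h2
      have h3 := le_max_right (t i) (s (t i))
      omega
    refine Finset.mem_coe.2 (Finset.mem_union_right _ (Finset.mem_image.2 ⟨s (t i), ?_, rfl⟩))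
    exact Finset.mem_filter.2 ⟨Finset.mem_range.2 h1, hs1 _⟩

end Pool.Agent.Lib.MP_f44088_fd
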