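import Mathlib
import Pool.Agent.Lib.MP_f44088_al.FB5.Spec

/-! Project FB5 (MP_f44088_al): a finite group with abelian Sylow subgroups whose order has at most two prime divisors
is metabelian. -/

set_option autoImplicit false

open scoped commutatorElement

namespace Pool.Agent.Lib.MP_f44088_fd

open Pool.Agent.Lib.MP_f44088_fc.DLAux (AG)

namespace TwoPrAux

theorem two_primes (n : ℕ) (h : n.primeFactors.card ≤ 2) :
    ∃ p q : ℕ, p.Prime ∧ q.Prime ∧ p ≠ q ∧ n.primeFactors ⊆ {p, q} := by
  classical
  rcases Nat.lt_or_ge n.primeFactors.card 1 with h0 | h1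
  · have h2 : n.primeFactors = ∅ := Finset.card_eq_zero.mp (by omega)
    exact ⟨2, 3, Nat.prime_two, Nat.prime_three, by norm_num, by rw [h2]; exact Finset.empty_subset _⟩
  · rcases Nat.lt_or_ge n.primeFactors.card 2 with h2 | h2
    · obtain ⟨p, hp⟩ := Finset.card_eq_one.mp (show n.primeFactors.card = 1 by omega)
      have hpp : p.Prime := Nat.prime_of_mem_primeFactors (n := n) (by rw [hp]; simp)
      obtain ⟨q, hq, hqp⟩ := Nat.exists_infinite_primes (p + 1)
      exact ⟨p, q, hpp, hqp, by omega, by rw [hp]; simp⟩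
    · obtain ⟨p, q, hne, hpq⟩ := Finset.card_eq_two.mp (show n.primeFactors.card = 2 by omega)
      exact ⟨p, q, Nat.prime_of_mem_primeFactors (n := n) (by rw [hpq]; simp),
        Nat.prime_of_mem_primeFactors (n := n) (by rw [hpq]; simp), hne, by rw [hpq]⟩

theorem prod_eq (n : ℕ) (hn : n ≠ 0) (p q : ℕ) (hne : p ≠ q) (h : n.primeFactors ⊆ {p, q}) :
    p ^ n.factorization p * q ^ n.factorization q = n := by
  classical
  have h1 : n.factorization.prod (fun x k => x ^ k) = n := Nat.prod_factorization_pow_eq_self hn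
  rw [Finsupp.prod_of_support_subset n.factorization (s := {p, q})
    (by rw [Nat.support_factorization]; exact h) _ (by intro i _; simp)] at h1
  rw [Finset.prod_pair hne] at h1
  exact h1

end TwoPrAux

open TwoPrAux in
theorem TwoPr : S_Ito → S_TwoPr := by
  intro hI G _ _ hA hc
  obtain ⟨p, q, hp, hq, hne, hsub⟩ := two_primes _ hc
  have : Fact p.Prime := ⟨hp⟩
  have : Fact q.Prime := ⟨hq⟩
  let A : Sylow p G := default
  let B : Sylow q G := default
  have hcA : Nat.card (A : Subgroup G) = p ^ (Nat.card G).factorization p := A.card_eq_multiplicity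
  have hcB : Nat.card (B : Subgroup G) = q ^ (Nat.card G).factorization q := B.card_eq_multiplicity
  have hcard : Nat.card (A : Subgroup G) * Nat.card (B : Subgroup G) = Nat.card G := by
    rw [hcA, hcB]
    exact prod_eq _ Nat.card_pos.ne' p q hne hsub
  have hcop : Nat.Coprime (Nat.card (A : Subgroup G)) (Nat.card (B : Subgroup G)) := by
    rw [hcA, hcB]
    exact Nat.Coprime.pow _ _ ((Nat.coprime_primes hp hq).2 hne)
  have hcompl := Subgroup.isComplement'_of_coprime hcard hcop
  refine hI G A B (hA p hp _ A.isPGroup') (hA q hq _ B.isPGroup') ?_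
  intro g
  obtain ⟨⟨a, b⟩, hab⟩ := hcompl.2 g
  exact ⟨a.1, a.2, b.1, b.2, hab.symm⟩

end Pool.Agent.Lib.MP_f44088_fd
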