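import Pool.Agent.Lib.MP_f44088_al.FB5.Spec

/-! Project FB5 (MP_f44088_al): the variety satisfies the law (module Wv). -/

set_option autoImplicit false

open scoped commutatorElement

namespace Pool.Agent.Lib.MP_f44088_fd

open Pool.Agent.Lib.MP_f44088_fb (Sat InVar FGrp Cls Mono inVar_of_injective inVar_of_surjective)
open Pool.Agent.Lib.MP_f44088_fb.SeqAux (sat_inVar map_lift sat_of_quot letters card_quot)

namespace WvAux

theorem K_one (hKK : S_KK) {G : Type} [Group G] (L : List G) : K L (1 : G) := by
  obtain ⟨H, -, hH⟩ := hKK G L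
  exact (hH 1).1 H.one_mem

theorem K_mem (hKK : S_KK) {G : Type} [Group G] : ∀ (L : List G), (1 : G) ∈ L → ∀ h : G, K L h
  | [], hm, _ => absurd hm (List.not_mem_nil)
  | z :: L, hm, h => by
    intro y
    rcases List.mem_cons.1 hm with h1 | h1
    · rw [← h1]
      have e : ⁅h, y * 1 * y⁻¹⁆ = 1 := by
        rw [mul_one, mul_inv_cancel, commutatorElement_one_right]
      rw [e]
      exact K_one hKK L
    · exact K_mem hKK L h1 _

theorem one_mem_prs {G : Type} [Group G] [Finite G] (N : ℕ) (hN : Nat.card G ≤ N) (x : ℕ → G) :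
    (1 : G) ∈ prs N x := by
  classical
  have : Fintype G := Fintype.ofFinite G
  obtain ⟨a, ha, b, hb, hab, he⟩ := Finset.exists_ne_map_eq_of_card_lt_of_maps_to
    (s := Finset.range (N + 1)) (t := (Finset.univ : Finset G)) (f := x)
    (by rw [Finset.card_range, Finset.card_univ, ← Nat.card_eq_fintype_card]; omega)
    (fun _ _ => Finset.mem_coe.2 (Finset.mem_univ _))
  have key : ∀ i j : ℕ, i < j → j ∈ Finset.range (N + 1) → x i = x j → (1 : G) ∈ prs N x := by
    intro i j hij hj hx
    unfold prs
    rw [List.mem_flatMap]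
    refine ⟨j, List.mem_range.2 (Finset.mem_range.1 hj), ?_⟩
    rw [List.mem_map]
    exact ⟨i, List.mem_range.2 hij, by rw [hx, mul_inv_cancel]⟩
  rcases lt_or_gt_of_ne hab with h | h
  · exact key a b h hb he
  · exact key b a h ha he.symm

end WvAux

open WvAux in
theorem Wv : S_KK → S_Law → S_Wv := by
  classical
  intro hKK hLaw W N hfin hmono
  obtain ⟨v, hv⟩ := hLaw N
  -- finite members
  have hA : ∀ (n : ℕ) (H : Type) [Group H] [Finite H], Nat.card H = n → Sat W H →
      Sat ({v} : Set (FreeGroup ℕ)) H := by
    intro n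
    induction n using Nat.strong_induction_on with
    | _ n ih =>
      intro H _ _ hn hH
      by_cases hm : Mono H
      · intro w hw
        rw [Set.mem_singleton_iff.1 hw]
        refine (hv H).2 ?_
        intro x h hh
        rcases hmono H hH hm with h3 | h3
        · rw [h3, Subgroup.mem_bot] at hh
          rw [hh]
          exact K_one hKK _
        · exact K_mem hKK _ (one_mem_prs N h3 x) h
      · unfold Mono at hm
        rw [not_and_or] at hm
        rcases hm with hm | hm
        · rw [not_nontrivial_iff_subsingleton] at hm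
          exact fun w _ f => Subsingleton.elim _ _
        · push Not at hm
          obtain ⟨M, M', hM, hM', hMM, h1, h2⟩ := hm
          have q1 : Sat W (H ⧸ M) := sat_inVar
            (inVar_of_surjective (QuotientGroup.mk' M) (QuotientGroup.mk'_surjective M)) hH
          have q2 : Sat W (H ⧸ M') := sat_inVar
            (inVar_of_surjective (QuotientGroup.mk' M') (QuotientGroup.mk'_surjective M')) hH
          exact sat_of_quot M M' hMM
            (ih _ (hn ▸ card_quot M h1) (H ⧸ M) rfl q1)
            (ih _ (hn ▸ card_quot M' h2) (H ⧸ M') rfl q2)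
  intro G _ hG
  refine (hv G).1 ?_
  intro f
  obtain ⟨k, hk⟩ := letters v
  let s : Finset G := (Finset.range k).image f
  have hfs : Finite (Subgroup.closure (s : Set G)) := hfin G hG s
  let H : Subgroup G := Subgroup.closure (s : Set G)
  have : Finite H := hfs
  have hH : Sat W H := sat_inVar (inVar_of_injective H.subtype H.subtype_injective) hG
  have hlaw := hA _ H rfl hH v (Set.mem_singleton v)
  let g : ℕ → H := fun i => if h : i < k then ⟨f i, Subgroup.subset_closure (by
    show f i ∈ (s : Set G)
    exact Finset.mem_coe.2 (Finset.mem_image.2 ⟨i, Finset.mem_range.2 h, rfl⟩))⟩ else 1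
  have h4 := hlaw g
  have h5 : FreeGroup.lift f v = FreeGroup.lift (fun i => H.subtype (g i)) v := by
    refine hk G f _ fun i hi => ?_
    have h6 : g i = ⟨f i, Subgroup.subset_closure (by
      show f i ∈ (s : Set G)
      exact Finset.mem_coe.2 (Finset.mem_image.2 ⟨i, Finset.mem_range.2 hi, rfl⟩))⟩ := dif_pos hi
    rw [h6]
    rfl
  rw [h5, ← map_lift, h4, map_one]

end Pool.Agent.Lib.MP_f44088_fd
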