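import Pool.Agent.Lib.MP_f44088_al.FB4.All
import Pool.Agent.Lib.MP_f44088_al.FB5.KK
import Pool.Agent.Lib.MP_f44088_al.FB5.Law
import Pool.Agent.Lib.MP_f44088_al.FB5.Two
import Pool.Agent.Lib.MP_f44088_al.FB5.Wv
import Pool.Agent.Lib.MP_f44088_al.FB5.Chf
import Pool.Agent.Lib.MP_f44088_al.FB5.Nil
import Pool.Agent.Lib.MP_f44088_al.FB5.Max
import Pool.Agent.Lib.MP_f44088_al.FB5.Ker
import Pool.Agent.Lib.MP_f44088_al.FB5.LF
import Pool.Agent.Lib.MP_f44088_al.FB5.Cen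
import Pool.Agent.Lib.MP_f44088_al.FB5.Bd
import Pool.Agent.Lib.MP_f44088_al.FB5.Ito
import Pool.Agent.Lib.MP_f44088_al.FB5.TwoPr
import Pool.Agent.Lib.MP_f44088_al.FB5.Ab3
import Pool.Agent.Lib.MP_f44088_al.FB5.Non3
import Pool.Agent.Lib.MP_f44088_al.FB5.Red
import Pool.Agent.Lib.MP_f44088_al.FB5.Seq
import Pool.Agent.Lib.MP_f44088_al.FB5.MainB
import Pool.Agent.Lib.MP_f44088_al.FB5.Fin

/-! Project FB5 (MP_f44088_al): assembly. -/

set_option autoImplicit false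

namespace Pool.Agent.Lib.MP_f44088_fd

theorem all_Chf : S_Chf := Chf KK
theorem all_Law : S_Law := Law KK
theorem all_Wv : S_Wv := Wv KK all_Law
theorem all_LF : S_LF := LF Pool.Agent.Lib.MP_f44088_fb.FgF all_Chf Nil Max Ker
theorem all_Bd : S_Bd := Bd all_Chf Cen Pool.Agent.Lib.MP_f44088_fc.all_Dua
theorem all_TwoPr : S_TwoPr := TwoPr Ito
theorem all_Ab3 : S_Ab3 := Ab3 Cen all_TwoPr
theorem all_Non3 : S_Non3 := Non3 all_Ab3 all_TwoPr
theorem all_Red : S_Red := Red all_Non3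
theorem all_Seq : S_Seq := Seq all_Law Two all_Wv all_LF all_Bd
theorem all_MainB : S_MainB := MainB Pool.Agent.Lib.MP_f44088_fc.all_Main
theorem all_Fin : S_Fin := Fin Pool.Agent.Lib.MP_f44088_fc.all_Exp all_Red all_Seq all_MainB

end Pool.Agent.Lib.MP_f44088_fd
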