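import Mathlib
import Pool.Agent.Lib.MP_f44088_al.FB5.Spec

set_option autoImplicit false

/-! Project FB5: the centralizer of a normal `p`-subgroup of a finite monolithic A-group. -/

open scoped commutatorElement

namespace Pool.Agent.Lib.MP_f44088_fd

open Pool.Agent.Lib.MP_f44088_fb (Mono)
open Pool.Agent.Lib.MP_f44088_fc.DLAux (AG central_eq_one)

namespace CenAux

theorem eq_one_of_coprime {G : Type} [Group G] (c : G) (a m : ℕ) (h : a.Coprime m)
    (ha : c ^ a = 1) (hm : c ^ m = 1) : c = 1 := by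
  have h1 : orderOf c ∣ Nat.gcd a m :=
    Nat.dvd_gcd (orderOf_dvd_of_pow_eq_one ha) (orderOf_dvd_of_pow_eq_one hm)
  rw [h] at h1
  exact orderOf_eq_one_iff.1 (Nat.dvd_one.1 h1)

end CenAux

open CenAux in
theorem Cen : S_Cen := by
  intro G _ _ hM hG p hp A hAn hA0 hAp
  have : Fact p.Prime := ⟨hp⟩
  have := hAn
  obtain ⟨P, hAP⟩ := hAp.exists_le_sylow
  let C : Subgroup G := Subgroup.centralizer (A : Set G)
  have hPC : (P : Subgroup G) ≤ C := by
    intro x hx
    rw [Subgroup.mem_centralizer_iff]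
    intro a ha
    exact hG p hp P P.isPGroup' a (hAP ha) x hx
  have hCn : C.Normal := by
    refine ⟨fun c hc g => ?_⟩
    rw [Subgroup.mem_centralizer_iff] at hc ⊢
    intro a ha
    have h1 := hc (g⁻¹ * a * g) (by simpa using hAn.conj_mem a ha g⁻¹)
    calc a * (g * c * g⁻¹) = g * ((g⁻¹ * a * g) * c) * g⁻¹ := by group
      _ = g * (c * (g⁻¹ * a * g)) * g⁻¹ := by rw [h1]
      _ = g * c * g⁻¹ * a := by group
  have := hCn
  have hidx : ¬ p ∣ ((P : Subgroup G).subgroupOf C).index := by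
    intro h
    have h1 : (P : Subgroup G).relIndex C * C.index = (P : Subgroup G).index :=
      Subgroup.relIndex_mul_index hPC
    have h2 : ¬ p ∣ (P : Subgroup G).index := P.not_dvd_index
    exact h2 (h1 ▸ Dvd.dvd.mul_right h _)
  have hcap : ⁅C, C⁆ ⊓ A = ⊥ := by
    rw [eq_bot_iff]
    rintro z ⟨hz1, hz2⟩
    have hz3 : z ∈ (commutator C).map C.subtype := by
      rw [Subgroup.map_subtype_commutator]
      exact hz1
    obtain ⟨y, hy, rfl⟩ := hz3
    rw [Subgroup.mem_bot]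
    have h1 : y = 1 := by
      refine central_eq_one p hp ((P : Subgroup G).subgroupOf C) ?_ hidx y ?_ ?_ hy
      · intro a ha b hb
        exact Subtype.ext (hG p hp P P.isPGroup' a.1 ha b.1 hb)
      · intro g
        have h2 := g.2
        rw [Subgroup.mem_centralizer_iff] at h2
        exact Subtype.ext (h2 y.1 hz2)
      · obtain ⟨j, hj⟩ := hAp ⟨y.1, hz2⟩
        have h3 : y.1 ^ (p ^ j) = 1 := congrArg Subtype.val hj
        exact ⟨j, Subtype.ext h3⟩
    rw [h1]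
    rfl
  have hCC : ⁅C, C⁆ = ⊥ := by
    rcases hM.2 _ _ inferInstance hAn hcap with h | h
    · exact h
    · exact absurd h hA0
  have hCab : ∀ x ∈ C, ∀ y ∈ C, x * y = y * x := by
    intro x hx y hy
    have h1 : ⁅x, y⁆ ∈ ⁅C, C⁆ := Subgroup.commutator_mem_commutator hx hy
    rw [hCC, Subgroup.mem_bot] at h1
    exact commutatorElement_eq_one_iff_mul_comm.1 h1
  let Q : Subgroup G :=
    { carrier := {z | z ∈ C ∧ ∃ j : ℕ, z ^ (p ^ j) = 1}
      one_mem' := ⟨one_mem _, 0, one_pow _⟩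
      mul_mem' := by
        rintro a b ⟨ha, i, hi⟩ ⟨hb, j, hj⟩
        refine ⟨mul_mem ha hb, i + j, ?_⟩
        have hc : Commute a b := hCab a ha b hb
        rw [hc.mul_pow, pow_add, pow_mul, hi, one_pow, one_mul, mul_comm (p ^ i), pow_mul, hj,
          one_pow]
      inv_mem' := by
        rintro a ⟨ha, i, hi⟩
        exact ⟨inv_mem ha, i, by rw [inv_pow, hi, inv_one]⟩ }
  have hQp : IsPGroup p Q := by
    rintro ⟨a, ha, i, hi⟩
    exact ⟨i, Subtype.ext hi⟩
  have hPQ : (P : Subgroup G) ≤ Q := by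
    intro x hx
    obtain ⟨j, hj⟩ := P.isPGroup' ⟨x, hx⟩
    exact ⟨hPC hx, j, congrArg Subtype.val hj⟩
  have hQP : Q = P := P.is_maximal' hQp hPQ
  -- the elements of `C` of order prime to `p`
  let R : Subgroup G :=
    { carrier := {z | z ∈ C ∧ ∃ m : ℕ, m.Coprime p ∧ z ^ m = 1}
      one_mem' := ⟨one_mem _, 1, Nat.coprime_one_left p, one_pow _⟩
      mul_mem' := by
        rintro a b ⟨ha, i, hi, hi'⟩ ⟨hb, j, hj, hj'⟩
        refine ⟨mul_mem ha hb, i * j, Nat.Coprime.mul_left hi hj, ?_⟩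
        have hc : Commute a b := hCab a ha b hb
        rw [hc.mul_pow, pow_mul, hi', one_pow, one_mul, mul_comm i, pow_mul, hj', one_pow]
      inv_mem' := by
        rintro a ⟨ha, i, hi, hi'⟩
        exact ⟨inv_mem ha, i, hi, by rw [inv_pow, hi', inv_one]⟩ }
  have hRn : R.Normal := by
    refine ⟨?_⟩
    rintro a ⟨ha, i, hi, hi'⟩ g
    refine ⟨hCn.conj_mem a ha g, i, hi, ?_⟩
    rw [conj_pow, hi', mul_one, mul_inv_cancel]
  have hRA : R ⊓ A = ⊥ := by
    rw [eq_bot_iff]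
    rintro z ⟨⟨-, m, hm, hm'⟩, hz⟩
    rw [Subgroup.mem_bot]
    obtain ⟨j, hj⟩ := hAp ⟨z, hz⟩
    have h3 : z ^ (p ^ j) = 1 := congrArg Subtype.val hj
    exact eq_one_of_coprime z m (p ^ j) (Nat.Coprime.pow_right j hm) hm' h3
  have hR : R = ⊥ := by
    rcases hM.2 R A hRn hAn hRA with h | h
    · exact h
    · exact absurd h hA0
  refine ⟨P, ?_, hAP, P.isPGroup', P.not_dvd_index, ?_⟩
  · rw [← hQP]
    refine ⟨?_⟩
    rintro a ⟨ha, i, hi⟩ g
    refine ⟨hCn.conj_mem a ha g, i, ?_⟩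
    rw [conj_pow, hi, mul_one, mul_inv_cancel]
  · intro g hg
    have hgC : g ∈ C := Subgroup.mem_centralizer_iff.2 fun a ha => hg a ha
    obtain ⟨a, m, hm, ho⟩ := Nat.exists_eq_pow_mul_and_not_dvd (orderOf_pos g).ne' p hp.ne_one
    have h1 : g ^ (p ^ a) ∈ R := by
      refine ⟨C.pow_mem hgC _, m, ((Nat.Prime.coprime_iff_not_dvd hp).2 hm).symm, ?_⟩
      rw [← pow_mul, ← ho, pow_orderOf_eq_one]
    rw [hR, Subgroup.mem_bot] at h1
    show g ∈ (P : Subgroup G)
    rw [← hQP]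
    exact ⟨hgC, a, h1⟩

end Pool.Agent.Lib.MP_f44088_fd
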