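import Pool.Agent.Lib.MP_f44088_al.FB5.All

/-! Project FB5 (MP_f44088_al): one theorem for both cases. -/

set_option autoImplicit false

namespace Pool.Agent.Lib.MP_f44088_fd

open Pool.Agent.Lib.MP_f44088_fb (Sat InVar FGrp Cls Mono)
open Pool.Agent.Lib.MP_f44088_fc.DLAux (AG)

/-- every large finite monolithic member has derived length at most 3 or at most three primes; the orders of the
finite nonabelian simple members are bounded -/
theorem Uni (W : Set (FreeGroup ℕ))
    (hW : ∀ (G : Type) [Group G], Sat W G →
      (∀ s : Finset G, Finite (Subgroup.closure (s : Set G))) ∧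
      ∀ p : ℕ, p.Prime → ∀ P : Sylow p G, ∀ x ∈ P, ∀ y ∈ P, x * y = y * x)
    (N : ℕ)
    (h1 : ∀ (G : Type) [Group G] [Finite G], Sat W G → IsSimpleGroup G →
      (¬ ∀ x y : G, x * y = y * x) → Nat.card G ≤ N)
    (h2 : ∀ (G : Type) [Group G] [Finite G], Sat W G → Mono G →
      derivedSeries G 3 = ⊥ ∨ Nat.card G ≤ N ∨ (Nat.card G).primeFactors.card ≤ 3) :
    ∃ B : Finset (FreeGroup ℕ), ∀ (G : Type) [Group G], (Sat W G ↔ Sat (B : Set (FreeGroup ℕ)) G) := by
  obtain ⟨n, hn, hexp⟩ := Pool.Agent.Lib.MP_f44088_fc.all_Exp W (fun G _ hG => (hW G hG).1)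
  refine all_Fin W hW (Or.inl ⟨(N + n).factorial, ?_⟩)
  intro G _ _ hG hM
  have hAG : AG G := RedAux.ag_of_sylow (hW G hG).2
  rcases h2 G hG hM with h | h | h
  · exact Or.inl h
  · right
    have : Nat.card G ≤ N + n := by omega
    exact this.trans (Nat.self_le_factorial _)
  · rcases all_Non3 G hM hAG h with h | ⟨M, _, hMs, hMc⟩
    · exact Or.inl h
    · right
      have hWM : Sat W M := Pool.Agent.Lib.MP_f44088_fb.SeqAux.sat_inVar
        (Pool.Agent.Lib.MP_f44088_fb.inVar_of_injective M.subtype M.subtype_injective) hG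
      have hMN : Nat.card M ≤ N + n := by
        by_cases hab : ∀ x y : M, x * y = y * x
        · letI : CommGroup M := { (inferInstance : Group M) with mul_comm := hab }
          have hp : (Nat.card M).Prime := IsSimpleGroup.prime_card
          obtain ⟨x, hx⟩ := IsCyclic.exists_generator (α := M)
          have ho : orderOf x = Nat.card M := orderOf_eq_card_of_forall_mem_zpowers hx
          have hd : orderOf x ∣ n := orderOf_dvd_of_pow_eq_one (hexp M hWM x)
          have := Nat.le_of_dvd hn hd
          omega
        · have := h1 M hWM hMs hab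
          omega
      exact hMc.trans (Nat.factorial_le hMN)

end Pool.Agent.Lib.MP_f44088_fd
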